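import Pool.Agent.helper82.KN.Spec

/-!
# Project kn: assembly from the rows
-/

set_option autoImplicit false

open Finset Polynomial

namespace Pool.Agent.KN

/-- one triangle for each edge: reconstruction of the points -/
theorem core (hMDA : MDA_stmt) (hMLI : MLI_stmt) (hLS0 : LS0_stmt)
    (hRD1 : RD1_stmt) (hRD2 : RD2_stmt) (hRD3 : RD3_stmt) (hRCL : RCL_stmt) (hRSE : RSE_stmt) (hRIS : RIS_stmt)
    {V : Type} [Fintype V] [DecidableEq V] (A : Matrix V V ℤ) (hA : Spec93 A)
    (ht : ∀ u v, A u v = 1 → MM A u v = -6) : ∃ e : V93 ≃ V, ∀ s t : V93, A (e s) (e t) = 1 ↔ Disjoint s.1 t.1 := by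
  have h1 := hMDA V A hA
  have h3 := hMLI V A (MM A) h1 ht
  have h4 := hLS0 V A (MM A) h3
  obtain ⟨r, hr6, hrA, hr⟩ := hRD1 V A (MM A) h3 h4
  obtain ⟨h5, h6⟩ := hRD3 V A (MM A) r h3 hr hr6 hrA
  have h7 := hRD2 V r hr h5 h6
  have h8 := hRCL V r hr h7
  obtain ⟨e, he⟩ := hRIS V r hr h8 (hRSE V r hr h7 h8)
  refine ⟨e, fun s t => ?_⟩
  rw [hrA, he, Finset.disjoint_iff_inter_eq_empty, ← Finset.card_eq_zero]
  omega

theorem map_adj {V : Type} [Fintype V] [DecidableEq V] (G : SimpleGraph V) [DecidableRel G.Adj] (R : Type) [Ring R] :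
    (G.adjMatrix ℤ).map (fun x : ℤ => (x : R)) = G.adjMatrix R := by
  ext u v
  rw [Matrix.map_apply, SimpleGraph.adjMatrix_apply, SimpleGraph.adjMatrix_apply]
  split_ifs <;> simp

/-- the main theorem -/
theorem main (hSPB : SPB_stmt) (hSPC : SPC_stmt) (hSPK : SPK_stmt) (hR2H : R2H_stmt) (hR3H : R3H_stmt)
    (hMDA : MDA_stmt) (hMLA : MLA_stmt) (hMLB : MLB_stmt)
    (hcore : ∀ (V : Type) [Fintype V] [DecidableEq V] (A : Matrix V V ℤ), Spec93 A →
      (∀ u v, A u v = 1 → MM A u v = -6) → ∃ e : V93 ≃ V, ∀ s t : V93, A (e s) (e t) = 1 ↔ Disjoint s.1 t.1) :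
    ∀ (V : Type) [Fintype V] [DecidableEq V] (G : SimpleGraph V) [DecidableRel G.Adj],
      (G.adjMatrix ℝ).charpoly = (K93.adjMatrix ℝ).charpoly →
      ((∀ u v, G.Adj u v → ∃ w, G.Adj u w ∧ G.Adj v w) ∨
        (∀ u v, G.Adj u v → ∀ w w', G.Adj u w → G.Adj v w → G.Adj u w' → G.Adj v w' → w = w') ∨
        (G.adjMatrix (ZMod 2)).rank ≤ 49 ∨
        (G.adjMatrix (ZMod 3) + 1).rank ≤ 28) → Nonempty (K93 ≃g G) := by
  intro V _ _ G _ hG hor
  have h1 := hSPC V93 (K93.adjMatrix ℤ) hSPK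
  rw [map_adj] at h1
  have h2 : Spec93 (G.adjMatrix ℤ) := hSPB V G (hG.trans h1)
  have hone : ∀ u v, G.adjMatrix ℤ u v = 1 → G.Adj u v := by
    intro u v huv
    rw [SimpleGraph.adjMatrix_apply] at huv
    by_contra hn
    rw [if_neg hn] at huv
    exact zero_ne_one huv
  have hM := hMDA V _ h2
  have h3 : ∀ u v, G.adjMatrix ℤ u v = 1 → MM (G.adjMatrix ℤ) u v = -6 := by
    rcases hor with h | h | h | h
    · refine hMLA V _ _ hM ?_
      intro u v huv
      obtain ⟨w, hw1, hw2⟩ := h u v (hone u v huv)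
      rw [Matrix.mul_apply]
      have h4 : G.adjMatrix ℤ u w * G.adjMatrix ℤ w v = 1 := by
        rw [SimpleGraph.adjMatrix_apply, SimpleGraph.adjMatrix_apply, if_pos hw1, if_pos hw2.symm, one_mul]
      rw [← h4]
      refine Finset.single_le_sum (f := fun j => G.adjMatrix ℤ u j * G.adjMatrix ℤ j v) (fun j _ => ?_) (Finset.mem_univ w)
      change (0 : ℤ) ≤ G.adjMatrix ℤ u j * G.adjMatrix ℤ j v
      rw [SimpleGraph.adjMatrix_apply, SimpleGraph.adjMatrix_apply]
      split_ifs <;> norm_num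
    · refine hMLB V _ _ hM ?_
      intro u v huv
      have huv' := hone u v huv
      rw [Matrix.mul_apply]
      by_cases hex : ∃ w, G.Adj u w ∧ G.Adj v w
      · obtain ⟨w, hw1, hw2⟩ := hex
        rw [Finset.sum_eq_single w]
        · rw [SimpleGraph.adjMatrix_apply, SimpleGraph.adjMatrix_apply]
          split_ifs <;> norm_num
        · intro w' _ hw'
          rw [SimpleGraph.adjMatrix_apply, SimpleGraph.adjMatrix_apply]
          by_cases h5 : G.Adj u w'
          · by_cases h6 : G.Adj w' v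
            · exact absurd (h u v huv' w w' hw1 hw2 h5 h6.symm).symm hw'
            · rw [if_neg h6, mul_zero]
          · rw [if_neg h5, zero_mul]
        · intro h5
          exact absurd (Finset.mem_univ w) h5
      · rw [Finset.sum_eq_zero]
        · norm_num
        · intro w' _
          rw [SimpleGraph.adjMatrix_apply, SimpleGraph.adjMatrix_apply]
          by_cases h5 : G.Adj u w'
          · by_cases h6 : G.Adj w' v
            · exact absurd ⟨w', h5, h6.symm⟩ hex
            · rw [if_neg h6, mul_zero]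
          · rw [if_neg h5, zero_mul]
    · rw [← map_adj] at h
      exact hMLA V _ _ hM (hR2H V _ h2 h)
    · rw [← map_adj] at h
      exact hMLA V _ _ hM (hR3H V _ h2 h)
  obtain ⟨e, he⟩ := hcore V (G.adjMatrix ℤ) h2 h3
  refine ⟨⟨e, ?_⟩⟩
  intro s t
  have h5 := he s t
  rw [SimpleGraph.adjMatrix_apply] at h5
  constructor
  · intro h
    rw [if_pos h] at h5
    exact h5.mp rfl
  · intro h
    by_contra hn
    rw [if_neg hn] at h5
    exact zero_ne_one (h5.mpr h)

end Pool.Agent.KN
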