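import Mathlib

/-!
# Project kn (MP_8ffa71_co): graphs with the spectrum of the Kneser graph K(9,3). Definitions
-/

set_option autoImplicit false

open Finset Polynomial

namespace Pool.Agent.KN

/-- the 3-element subsets of a set with 9 elements -/
abbrev V93 : Type := {s : Finset (Fin 9) // s.card = 3}

/-- the Kneser graph K(9,3) -/
def K93 : SimpleGraph V93 where
  Adj s t := Disjoint s.1 t.1
  symm := ⟨fun _ _ h => Disjoint.symm h⟩
  loopless := ⟨fun s h => by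
    have h1 : s.1 = ∅ := disjoint_self.mp h
    have h2 := s.2
    rw [h1] at h2
    simp at h2⟩

instance : DecidableRel K93.Adj := fun s t => inferInstanceAs (Decidable (Disjoint s.1 t.1))

/-- the polynomial (X - 20)(X + 10)^8 (X - 4)^27 (X + 1)^48 -/
noncomputable def P93 (F : Type) [Field F] : F[X] := (X - 20) * (X + 10) ^ 8 * (X - 4) ^ 27 * (X + 1) ^ 48

/-- the all-one matrix -/
def JJ (V : Type) : Matrix V V ℤ := Matrix.of fun _ _ => 1

section

variable {V : Type} [Fintype V] [DecidableEq V]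

/-- `A` is the adjacency matrix of a graph with the spectrum of K(9,3) -/
structure Spec93 (A : Matrix V V ℤ) : Prop where
  card : Fintype.card V = 84
  symm : ∀ u v, A u v = A v u
  zo : ∀ u v, A u v = 0 ∨ A u v = 1
  diag : ∀ u, A u u = 0
  row : ∀ u, ∑ v, A u v = 20
  cub : A * A * A + (7 : ℤ) • (A * A) - (34 : ℤ) • A - (40 : ℤ) • 1 = (120 : ℤ) • JJ V

/-- `M = A² - 3A - 4I - 4J`, which is 126 times the projection onto the eigenspace of -10 -/
def MM (A : Matrix V V ℤ) : Matrix V V ℤ := A * A - (3 : ℤ) • A - (4 : ℤ) • 1 - (4 : ℤ) • JJ V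

/-- the pair `(A, M)` -/
structure MData (A M : Matrix V V ℤ) : Prop where
  card : Fintype.card V = 84
  symm : ∀ u v, A u v = A v u
  zo : ∀ u v, A u v = 0 ∨ A u v = 1
  diag : ∀ u, A u u = 0
  row : ∀ u, ∑ v, A u v = 20
  conn : ∀ u v, u ≠ v → A u v ≠ 0 ∨ (A * A) u v ≠ 0 ∨ (A * A * A) u v ≠ 0
  msymm : ∀ u v, M u v = M v u
  mdiag : ∀ u, M u u = 12
  mrow : ∀ u, ∑ v, M u v = 0
  sq : ∀ u v, (A * A) u v = M u v + 3 * A u v + (if u = v then 4 else 0) + 4
  mm : M * M = (126 : ℤ) • M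
  am : A * M = (-10 : ℤ) • M
  msq : ∀ u, ∑ v, M u v ^ 2 = 1512

/-- every edge `uv` is in exactly one triangle `u v (p u v)` -/
structure LData (A M : Matrix V V ℤ) : Prop extends MData A M where
  edge : ∀ u v, A u v = 1 → M u v = -6
  par : ∃ p : V → V → V, ∀ u v, A u v = 1 → A u (p u v) = 1 ∧ A v (p u v) = 1 ∧ p u (p u v) = v ∧
    (∀ w, A u w = 1 → A v w = 1 → w = p u v) ∧ ∀ z, M u z + M v z + M (p u v) z = 0

/-- the number of `v` with `M u v = j` -/
def nj (M : Matrix V V ℤ) (u : V) (j : ℤ) : ℕ := (univ.filter fun v => M u v = j).card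

/-- `{x : r w x = -1}` -/
def ad (r : V → V → ℤ) (w : V) : Finset V := univ.filter fun x => r w x = -1

/-- `{x : r w x = 1}` -/
def bd (r : V → V → ℤ) (w : V) : Finset V := univ.filter fun x => r w x = 1

/-- `r = M / 6` in the last part of the proof -/
structure RBas (r : V → V → ℤ) : Prop where
  card : Fintype.card V = 84
  symm : ∀ u v, r u v = r v u
  diag : ∀ u, r u u = 2
  val : ∀ u v, u ≠ v → r u v = -1 ∨ r u v = 0 ∨ r u v = 1
  na : ∀ u, (ad r u).card = 20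
  nb : ∀ u, (bd r u).card = 18
  sq : ∀ u v, ∑ x, r u x * r v x = 21 * r u v
  suma : ∀ u z, ∑ x ∈ ad r u, r z x = -10 * r z u
  sumb : ∀ u z, ∑ x ∈ bd r u, r z x = 9 * r z u
  line : ∀ u v, r u v = -1 → ∃ w, ∀ z, r z u + r z v + r z w = 0
  mu : ∀ u v, r u v = 1 → (ad r u ∩ ad r v).card = 10
  cc : ∀ u v, r u v = 0 → (bd r u ∩ bd r v).card = 4
  pos : ∀ f : V → ℤ, 0 ≤ ∑ u, ∑ v, f u * f v * r u v
  nul : ∀ f : V → ℤ, ∑ u, ∑ v, f u * f v * r u v = 0 → ∀ z, ∑ u, f u * r z u = 0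

/-- the vanishing of a Krein parameter -/
def Krn (r : V → V → ℤ) : Prop := ∀ w u v, 12 * r u v + 8 * (r u w * r v w) =
  ∑ x ∈ ad r w, r u x * r v x + 2 * ∑ x ∈ bd r w, r u x * r v x

/-- `x` is the vertex with the vector `u + v - w` -/
def Clo (r : V → V → ℤ) : Prop := ∀ w u v, r w u = 1 → r w v = 1 → r u v = 0 →
  ∃ x, ∀ z, r z x = r z u + r z v - r z w

end

/-- nine 3-subsets -/
def sd : Fin 9 → Finset (Fin 9) :=
  ![{0, 1, 2}, {0, 1, 3}, {0, 2, 3}, {1, 2, 3}, {0, 1, 4}, {0, 1, 5}, {0, 1, 6}, {0, 1, 7}, {0, 1, 8}]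

end Pool.Agent.KN
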