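import Pool.Agent.helper82.KN.Spec

/-!
# Project kn: the properties hold for K(9,3) and are invariant under isomorphism
-/

set_option autoImplicit false

open Finset Polynomial

namespace Pool.Agent.KN

theorem K93_tri : ∀ u v, K93.Adj u v → ∃ w, K93.Adj u w ∧ K93.Adj v w := by
  intro u v huv
  have huv' : Disjoint u.1 v.1 := huv
  have hc : ((u.1 ∪ v.1)ᶜ).card = 3 := by
    rw [card_compl, card_union_of_disjoint huv', u.2, v.2]
    rfl
  refine ⟨⟨(u.1 ∪ v.1)ᶜ, hc⟩, ?_, ?_⟩
  · change Disjoint u.1 (u.1 ∪ v.1)ᶜ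
    exact disjoint_compl_right.mono_left subset_union_left
  · change Disjoint v.1 (u.1 ∪ v.1)ᶜ
    exact disjoint_compl_right.mono_left subset_union_right

theorem K93_uni : ∀ u v w w', K93.Adj u v → K93.Adj u w → K93.Adj v w → K93.Adj u w' → K93.Adj v w' → w = w' := by
  intro u v w w' huv h1 h2 h3 h4
  have huv' : Disjoint u.1 v.1 := huv
  have hc : ((u.1 ∪ v.1)ᶜ).card = 3 := by
    rw [card_compl, card_union_of_disjoint huv', u.2, v.2]
    rfl
  have key : ∀ x : V93, K93.Adj u x → K93.Adj v x → x.1 = (u.1 ∪ v.1)ᶜ := by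
    intro x hx1 hx2
    refine eq_of_subset_of_card_le ?_ (by rw [hc, x.2])
    intro k hk
    rw [mem_compl, mem_union]
    rintro (h | h)
    · exact (Finset.disjoint_left.mp (show Disjoint u.1 x.1 from hx1)) h hk
    · exact (Finset.disjoint_left.mp (show Disjoint v.1 x.1 from hx2)) h hk
  exact Subtype.ext ((key w h1 h2).trans (key w' h3 h4).symm)

theorem inv_tri {V : Type} (G : SimpleGraph V) (e : K93 ≃g G) : ∀ u v, G.Adj u v → ∃ w, G.Adj u w ∧ G.Adj v w := by
  intro u v huv
  have h1 : K93.Adj (e.symm u) (e.symm v) := e.symm.map_rel_iff.mpr huv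
  obtain ⟨w, h2, h3⟩ := K93_tri _ _ h1
  refine ⟨e w, ?_, ?_⟩
  · have h4 := e.map_rel_iff.mpr h2
    rwa [e.apply_symm_apply] at h4
  · have h4 := e.map_rel_iff.mpr h3
    rwa [e.apply_symm_apply] at h4

theorem inv_uni {V : Type} (G : SimpleGraph V) (e : K93 ≃g G) :
    ∀ u v w w', G.Adj u v → G.Adj u w → G.Adj v w → G.Adj u w' → G.Adj v w' → w = w' := by
  intro u v w w' huv h1 h2 h3 h4
  have h5 := K93_uni (e.symm u) (e.symm v) (e.symm w) (e.symm w') (e.symm.map_rel_iff.mpr huv)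
    (e.symm.map_rel_iff.mpr h1) (e.symm.map_rel_iff.mpr h2) (e.symm.map_rel_iff.mpr h3) (e.symm.map_rel_iff.mpr h4)
  exact e.symm.injective h5

theorem inv_adj {V : Type} [Fintype V] [DecidableEq V] (G : SimpleGraph V) [DecidableRel G.Adj] (e : K93 ≃g G)
    (R : Type) [CommRing R] : G.adjMatrix R = (K93.adjMatrix R).submatrix e.symm e.symm := by
  ext u v
  rw [Matrix.submatrix_apply, SimpleGraph.adjMatrix_apply, SimpleGraph.adjMatrix_apply]
  by_cases h : G.Adj u v
  · rw [if_pos h, if_pos (e.symm.map_rel_iff.mpr h)]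
  · rw [if_neg h, if_neg (fun h' => h (e.symm.map_rel_iff.mp h'))]

theorem inv_rank {V : Type} [Fintype V] [DecidableEq V] (G : SimpleGraph V) [DecidableRel G.Adj] (e : K93 ≃g G)
    (F : Type) [Field F] : (G.adjMatrix F).rank = (K93.adjMatrix F).rank := by
  rw [inv_adj G e F]
  exact Matrix.rank_submatrix (K93.adjMatrix F) e.symm.toEquiv e.symm.toEquiv

theorem inv_rank' {V : Type} [Fintype V] [DecidableEq V] (G : SimpleGraph V) [DecidableRel G.Adj] (e : K93 ≃g G)
    (F : Type) [Field F] : (G.adjMatrix F + 1).rank = (K93.adjMatrix F + 1).rank := by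
  have h : G.adjMatrix F + 1 = (K93.adjMatrix F + 1).submatrix e.symm e.symm := by
    rw [Matrix.submatrix_add, inv_adj G e F]
    congr 1
    exact (Matrix.submatrix_one_equiv e.symm.toEquiv).symm
  rw [h]
  exact Matrix.rank_submatrix (K93.adjMatrix F + 1) e.symm.toEquiv e.symm.toEquiv

end Pool.Agent.KN
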