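import Pool.Agent.helper82.KN.Spec

/-!
# Row kn:LTR: the trace inequality
-/

set_option autoImplicit false

open Finset Polynomial

namespace Pool.Agent.KN

theorem LTR_mm {V : Type} [Fintype V] [DecidableEq V] {A M : Matrix V V ℤ} (h : LData A M) (x y : V) :
    ∑ z, M x z * M y z = 126 * M x y := by
  have h3 := congrFun (congrFun h.mm x) y
  rw [Matrix.mul_apply, Matrix.smul_apply, smul_eq_mul] at h3
  rw [← h3]
  exact sum_congr rfl fun z _ => by rw [h.msymm z y]

theorem LTR_mm' {V : Type} [Fintype V] [DecidableEq V] {A M : Matrix V V ℤ} (h : LData A M) (x y : V) :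
    ∑ z, M z x * M z y = 126 * M x y := by
  rw [← LTR_mm h x y]
  exact sum_congr rfl fun z _ => by rw [h.msymm z x, h.msymm z y]

/-- `M D M` -/
def LTR_P {V : Type} [Fintype V] [DecidableEq V] (A M : Matrix V V ℤ) (u x y : V) : ℤ := ∑ w, A u w * (M x w * M y w)

/-- products with `M D M` -/
theorem LTR_prod {V : Type} [Fintype V] [DecidableEq V] (A M : Matrix V V ℤ) (u : V) (F : V → V → ℤ) :
    ∑ x, ∑ y, LTR_P A M u x y * F x y = ∑ w, A u w * ∑ x, M x w * ∑ y, M y w * F x y := by
  have h1 : ∀ x y, LTR_P A M u x y * F x y = ∑ w, A u w * (M x w * (M y w * F x y)) := by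
    intro x y
    unfold LTR_P
    rw [sum_mul]
    exact sum_congr rfl fun w _ => by ring
  have h2 : ∀ x, ∑ y, LTR_P A M u x y * F x y = ∑ w, A u w * (M x w * ∑ y, M y w * F x y) := by
    intro x
    rw [sum_congr rfl fun y _ => h1 x y, sum_comm]
    refine sum_congr rfl fun w _ => ?_
    rw [mul_sum, mul_sum]
  rw [sum_congr rfl fun x _ => h2 x, sum_comm]
  refine sum_congr rfl fun w _ => ?_
  rw [mul_sum]

theorem LTR : LTR_stmt := by
  intro V _ _ A M h u
  have hsq : ∀ x, ∑ y, M x y * M x y = 1512 := by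
    intro x
    rw [LTR_mm h x x, h.mdiag]
    norm_num
  have hsq' : ∀ x, ∑ y, M y x * M y x = 1512 := by
    intro x
    rw [LTR_mm' h x x, h.mdiag]
    norm_num
  set S := ∑ w, ∑ w', A u w * A u w' * M w w' ^ 2 with hS
  -- the six sums
  have S1 : ∑ x, ∑ y, LTR_P A M u x y * LTR_P A M u x y = 15876 * S := by
    rw [LTR_prod A M u (LTR_P A M u), hS, mul_sum]
    refine sum_congr rfl fun w _ => ?_
    have h1 : ∀ x, ∑ y, M y w * LTR_P A M u x y = 126 * ∑ w', A u w' * (M x w' * M w w') := by
      intro x
      unfold LTR_P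
      have h2 : ∀ y, M y w * ∑ w', A u w' * (M x w' * M y w') = ∑ w', A u w' * M x w' * (M y w * M y w') := by
        intro y
        rw [mul_sum]
        exact sum_congr rfl fun w' _ => by ring
      rw [sum_congr rfl fun y _ => h2 y, sum_comm, mul_sum]
      refine sum_congr rfl fun w' _ => ?_
      rw [← mul_sum, LTR_mm' h]
      ring
    have h3 : ∑ x, M x w * (126 * ∑ w', A u w' * (M x w' * M w w')) = 15876 * ∑ w', A u w' * M w w' ^ 2 := by
      have h4 : ∀ x, M x w * (126 * ∑ w', A u w' * (M x w' * M w w')) =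
          ∑ w', 126 * (A u w' * M w w') * (M x w * M x w') := by
        intro x
        rw [mul_sum, mul_sum]
        exact sum_congr rfl fun w' _ => by ring
      rw [sum_congr rfl fun x _ => h4 x, sum_comm, mul_sum]
      refine sum_congr rfl fun w' _ => ?_
      rw [← mul_sum, LTR_mm' h]
      ring
    rw [sum_congr rfl fun x _ => by rw [h1 x], h3, mul_sum, mul_sum, mul_sum]
    exact sum_congr rfl fun w' _ => by ring
  have S2 : ∑ x, ∑ y, M x y * M x y = 15876 * 8 := by
    rw [sum_congr rfl fun x _ => hsq x, sum_const, card_univ, h.card]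
    norm_num
  have S3 : ∑ x, ∑ y, (M x u * M y u) * (M x u * M y u) = 15876 * 144 := by
    have h1 : ∀ x, ∑ y, (M x u * M y u) * (M x u * M y u) = M x u * M x u * 1512 := by
      intro x
      rw [← hsq' u, mul_sum]
      exact sum_congr rfl fun y _ => by ring
    rw [sum_congr rfl fun x _ => h1 x, ← sum_mul, hsq' u]
    norm_num
  have S4 : ∑ x, ∑ y, LTR_P A M u x y * M x y = 15876 * 240 := by
    rw [LTR_prod A M u (fun x y => M x y)]
    have h1 : ∀ w, ∑ x, M x w * ∑ y, M y w * M x y = 15876 * 12 := by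
      intro w
      have h2 : ∀ x, M x w * ∑ y, M y w * M x y = 126 * (M x w * M x w) := by
        intro x
        have h3 : ∑ y, M y w * M x y = 126 * M x w := by
          rw [← LTR_mm h x w]
          exact sum_congr rfl fun y _ => by rw [h.msymm y w]; ring
        rw [h3]
        ring
      rw [sum_congr rfl fun x _ => h2 x, ← mul_sum, hsq' w]
      norm_num
    rw [sum_congr rfl fun w _ => by rw [h1 w], ← sum_mul, h.row]
    norm_num
  have S5 : ∑ x, ∑ y, LTR_P A M u x y * (M x u * M y u) = 15876 * 720 := by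
    rw [LTR_prod A M u (fun x y => M x u * M y u)]
    have h1 : ∀ w, ∑ x, M x w * ∑ y, M y w * (M x u * M y u) = 15876 * (M u w * M u w) := by
      intro w
      have h2 : ∀ x, M x w * ∑ y, M y w * (M x u * M y u) = 126 * M u w * (M x w * M x u) := by
        intro x
        have h3 : ∑ y, M y w * (M x u * M y u) = M x u * (126 * M w u) := by
          rw [← LTR_mm' h w u, mul_sum]
          exact sum_congr rfl fun y _ => by ring
        rw [h3, h.msymm w u]
        ring
      rw [sum_congr rfl fun x _ => h2 x, ← mul_sum, LTR_mm' h, h.msymm w u]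
      ring
    have h4 : ∀ w, A u w * (15876 * (M u w * M u w)) = 15876 * 36 * A u w := by
      intro w
      rcases h.zo u w with h0 | h0
      · rw [h0]; ring
      · rw [h0, h.edge u w h0]; ring
    rw [sum_congr rfl fun w _ => by rw [h1 w, h4 w], ← mul_sum, h.row]
    norm_num
  have S6 : ∑ x, ∑ y, M x y * (M x u * M y u) = 15876 * 12 := by
    have h1 : ∀ x, ∑ y, M x y * (M x u * M y u) = 126 * (M x u * M x u) := by
      intro x
      have h2 : ∑ y, M x y * (M x u * M y u) = M x u * ∑ y, M x y * M u y := by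
        rw [mul_sum]
        exact sum_congr rfl fun y _ => by rw [h.msymm y u]; ring
      rw [h2, LTR_mm h]
      ring
    rw [sum_congr rfl fun x _ => h1 x, ← mul_sum, hsq' u]
    norm_num
  -- the square
  have key : ∑ x, ∑ y, (7 * LTR_P A M u x y - 180 * M x y - 20 * (M x u * M y u)) ^ 2 = 15876 * (49 * S - 403200) := by
    have h1 : ∀ x y, (7 * LTR_P A M u x y - 180 * M x y - 20 * (M x u * M y u)) ^ 2 =
        49 * (LTR_P A M u x y * LTR_P A M u x y) + 32400 * (M x y * M x y) + 400 * ((M x u * M y u) * (M x u * M y u)) -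
        2520 * (LTR_P A M u x y * M x y) - 280 * (LTR_P A M u x y * (M x u * M y u)) + 7200 * (M x y * (M x u * M y u)) := by
      intro x y
      ring
    have h2 : ∀ x, ∑ y, (7 * LTR_P A M u x y - 180 * M x y - 20 * (M x u * M y u)) ^ 2 =
        49 * ∑ y, (LTR_P A M u x y * LTR_P A M u x y) + 32400 * ∑ y, (M x y * M x y) +
        400 * ∑ y, ((M x u * M y u) * (M x u * M y u)) - 2520 * ∑ y, (LTR_P A M u x y * M x y) -
        280 * ∑ y, (LTR_P A M u x y * (M x u * M y u)) + 7200 * ∑ y, (M x y * (M x u * M y u)) := by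
      intro x
      rw [sum_congr rfl fun y _ => h1 x y]
      simp only [mul_sum, sum_add_distrib, sum_sub_distrib]
    rw [sum_congr rfl fun x _ => h2 x]
    simp only [sum_add_distrib, sum_sub_distrib, ← mul_sum]
    rw [S1, S2, S3, S4, S5, S6]
    ring
  have hpos : 0 ≤ ∑ x, ∑ y, (7 * LTR_P A M u x y - 180 * M x y - 20 * (M x u * M y u)) ^ 2 :=
    sum_nonneg fun x _ => sum_nonneg fun y _ => sq_nonneg _
  rw [key] at hpos
  omega

theorem RD3 : RD3_stmt := by
  intro V _ _ A M r h hr h6 hA
  have hc : ∀ u v, ((ad r u ∩ ad r v).card : ℤ) = (A * A) u v := by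
    intro u v
    rw [Matrix.mul_apply]
    have h1 : ∀ w, A u w * A w v = if w ∈ ad r u ∩ ad r v then 1 else 0 := by
      intro w
      have h2 : w ∈ ad r u ∩ ad r v ↔ A u w = 1 ∧ A w v = 1 := by
        unfold ad
        rw [mem_inter, mem_filter, mem_filter, hA, h.symm w v, hA]
        simp
      by_cases h3 : w ∈ ad r u ∩ ad r v
      · rw [if_pos h3, (h2.mp h3).1, (h2.mp h3).2]
        rfl
      · rw [if_neg h3]
        rcases h.zo u w with h4 | h4
        · rw [h4, zero_mul]
        · rcases h.zo w v with h5 | h5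
          · rw [h5, mul_zero]
          · exact absurd (h2.mpr ⟨h4, h5⟩) h3
    rw [sum_congr rfl fun w _ => h1 w, sum_ite_mem, univ_inter, sum_const]
    simp
  constructor
  · intro u v huv
    have hne : u ≠ v := by
      rintro rfl
      have := hr.diag u
      omega
    have hA0 : A u v = 0 := by
      rcases h.zo u v with h1 | h1
      · exact h1
      · have := (hA u v).mp h1
        omega
    have h1 := hc u v
    rw [h.sq, if_neg hne, hA0, h6, huv] at h1
    omega
  · intro u v huv
    have hne : u ≠ v := by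
      rintro rfl
      have := hr.diag u
      omega
    have h1 := hc u v
    rw [h.sq, if_neg hne, (hA u v).mpr huv, h6, huv] at h1
    omega

end Pool.Agent.KN
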