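import Pool.Agent.helper82.KN.Spec

/-!
# Rows kn:MPO, kn:MLA, kn:MLB
-/

set_option autoImplicit false

open Finset Polynomial

namespace Pool.Agent.KN

theorem MPO : MPO_stmt := by
  intro V _ _ A M h f
  have h1 : ∑ z, (∑ u, f u * M z u) ^ 2 = 126 * ∑ u, ∑ v, f u * f v * M u v := by
    have h2 : ∀ u v, ∑ z, M z u * M z v = 126 * M u v := by
      intro u v
      have h3 := congrFun (congrFun h.mm u) v
      rw [Matrix.mul_apply, Matrix.smul_apply, smul_eq_mul] at h3
      rw [← h3]
      exact sum_congr rfl fun z _ => by rw [h.msymm z u]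
    have h3 : ∀ z, (∑ u, f u * M z u) ^ 2 = ∑ u, ∑ v, f u * f v * (M z u * M z v) := by
      intro z
      rw [sq, sum_mul_sum]
      exact sum_congr rfl fun u _ => sum_congr rfl fun v _ => by ring
    rw [sum_congr rfl fun z _ => h3 z, sum_comm, mul_sum]
    refine sum_congr rfl fun u _ => ?_
    rw [sum_comm, mul_sum]
    refine sum_congr rfl fun v _ => ?_
    rw [← mul_sum, h2]
    ring
  have h4 : 0 ≤ ∑ z, (∑ u, f u * M z u) ^ 2 := sum_nonneg fun z _ => sq_nonneg _
  refine ⟨by omega, fun h0 z => ?_⟩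
  rw [h0, mul_zero] at h1
  have h5 := (sum_eq_zero_iff_of_nonneg (fun z _ => sq_nonneg (∑ u, f u * M z u))).mp h1 z (mem_univ z)
  exact pow_eq_zero_iff (two_ne_zero) |>.mp h5

/-- the sum of `(A²)_uv` over the edges at `u` -/
theorem MLA_sum {V : Type} [Fintype V] [DecidableEq V] (A M : Matrix V V ℤ) (h : MData A M) (u : V) :
    ∑ v, A u v * ((A * A) u v - 1) = 0 := by
  have h1 := congrFun (congrFun h.am u) u
  rw [Matrix.mul_apply, Matrix.smul_apply, smul_eq_mul, h.mdiag] at h1
  have h2 : ∀ v, A u v * ((A * A) u v - 1) = A u v * M v u + 6 * A u v := by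
    intro v
    rw [h.msymm v u]
    rcases h.zo u v with h0 | h0
    · rw [h0]; ring
    · have huv : u ≠ v := by
        rintro rfl
        have := h.diag u
        omega
      rw [h.sq u v, if_neg huv, h0]
      ring
  rw [sum_congr rfl fun v _ => h2 v, sum_add_distrib, h1, ← mul_sum, h.row]
  norm_num

theorem MLA : MLA_stmt := by
  intro V _ _ A M h hge u v huv
  have h1 := MLA_sum A M h u
  have h2 : ∀ w ∈ (univ : Finset V), 0 ≤ A u w * ((A * A) u w - 1) := by
    intro w _
    rcases h.zo u w with h0 | h0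
    · rw [h0, zero_mul]
    · have := hge u w h0
      rw [h0, one_mul]
      omega
  have h3 := (sum_eq_zero_iff_of_nonneg h2).mp h1 v (mem_univ v)
  have huv' : u ≠ v := by
    rintro rfl
    have := h.diag u
    omega
  have h4 := h.sq u v
  rw [if_neg huv', huv] at h4
  rw [huv, one_mul] at h3
  omega

theorem MLB : MLB_stmt := by
  intro V _ _ A M h hle u v huv
  have h1 := MLA_sum A M h u
  have h2 : ∀ w ∈ (univ : Finset V), A u w * ((A * A) u w - 1) ≤ 0 := by
    intro w _
    rcases h.zo u w with h0 | h0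
    · rw [h0, zero_mul]
    · have := hle u w h0
      rw [h0, one_mul]
      omega
  have h3 := (sum_eq_zero_iff_of_nonpos h2).mp h1 v (mem_univ v)
  have huv' : u ≠ v := by
    rintro rfl
    have := h.diag u
    omega
  have h4 := h.sq u v
  rw [if_neg huv', huv] at h4
  rw [huv, one_mul] at h3
  omega

end Pool.Agent.KN
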