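import Pool.Agent.helper82.KN.Spec

/-!
# Rows kn:RNE, kn:RHF, kn:RC7
-/

set_option autoImplicit false

open Finset Polynomial

namespace Pool.Agent.KN

theorem RNE_mem_ad {V : Type} [Fintype V] [DecidableEq V] (r : V → V → ℤ) (w x : V) :
    x ∈ ad r w ↔ r w x = -1 := by
  unfold ad
  rw [mem_filter]
  exact ⟨fun h => h.2, fun h => ⟨mem_univ _, h⟩⟩

theorem RNE_mem_bd {V : Type} [Fintype V] [DecidableEq V] (r : V → V → ℤ) (w x : V) :
    x ∈ bd r w ↔ r w x = 1 := by
  unfold bd
  rw [mem_filter]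
  exact ⟨fun h => h.2, fun h => ⟨mem_univ _, h⟩⟩

theorem RNE_val {V : Type} [Fintype V] [DecidableEq V] {r : V → V → ℤ} (h : RBas r) (u v : V) :
    r u v = 2 ∨ r u v = -1 ∨ r u v = 0 ∨ r u v = 1 := by
  by_cases huv : u = v
  · left
    rw [huv]
    exact h.diag v
  · exact Or.inr (h.val u v huv)

theorem RNE : RNE_stmt := by
  intro V _ _ r h w u v hu hv huv
  obtain ⟨x, hx⟩ := h.line u v huv
  have h1 := hx w
  rcases RNE_val h w x with h2 | h2 | h2 | h2 <;> omega

theorem RHF : RHF_stmt := by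
  intro V _ _ r h w u b hu hb
  obtain ⟨c, hc⟩ := h.line w b hb
  have h1 := hc u
  have h2 := h.symm u w
  rcases RNE_val h u c with h3 | h3 | h3 | h3 <;> rcases RNE_val h u b with h4 | h4 | h4 | h4 <;> omega

theorem RC7 (hRNE : RNE_stmt) : RC7_stmt := by
  intro V _ _ r h w u hu
  have h1 := h.sumb w u
  have hs : r u w = 1 := (h.symm u w).trans hu
  have hmem : u ∈ bd r w := (RNE_mem_bd r w u).mpr hu
  rw [hs, ← Finset.add_sum_erase _ _ hmem, h.diag] at h1
  have h2 : ∑ x ∈ (bd r w).erase u, r u x = ∑ x ∈ (bd r w).erase u, if r u x = 1 then 1 else 0 := by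
    refine sum_congr rfl fun x hx => ?_
    have hx1 := (mem_erase.mp hx).1
    have hx2 := (RNE_mem_bd r w x).mp (mem_erase.mp hx).2
    have h3 := hRNE V r h w u x hu hx2
    rcases h.val u x (Ne.symm hx1) with h4 | h4 | h4
    · exact absurd h4 h3
    · rw [h4]; simp
    · rw [h4]; simp
  rw [h2, sum_boole] at h1
  have h3 : ((bd r w).erase u).filter (fun x => r u x = 1) = bd r w ∩ bd r u := by
    ext x
    rw [mem_filter, mem_erase, mem_inter, RNE_mem_bd, RNE_mem_bd]
    constructor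
    · rintro ⟨⟨-, h4⟩, h5⟩
      exact ⟨h4, h5⟩
    · rintro ⟨h4, h5⟩
      refine ⟨⟨?_, h4⟩, h5⟩
      rintro rfl
      have := h.diag x
      omega
  rw [h3] at h1
  have h4 : ((bd r w ∩ bd r u).card : ℤ) = 7 := by
    have h5 : (2 : ℤ) + ((bd r w ∩ bd r u).card : ℤ) = 9 * 1 := h1
    omega
  exact_mod_cast h4

/-- sum of the values over elements `x` of a set in which all values different from the one at `u` are 0 or 1 -/
theorem RD4_sum {V : Type} [Fintype V] [DecidableEq V] (r : V → V → ℤ) (h : RBas r) (S : Finset V) (u : V) (hu : u ∈ S)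
    (hS : ∀ x ∈ S, r u x ≠ -1) : ∑ x ∈ S, r u x = 2 + ((S ∩ bd r u).card : ℤ) := by
  rw [← Finset.add_sum_erase _ _ hu, h.diag]
  have h2 : ∑ x ∈ S.erase u, r u x = ∑ x ∈ S.erase u, if r u x = 1 then 1 else 0 := by
    refine sum_congr rfl fun x hx => ?_
    have hx1 := (mem_erase.mp hx).1
    have h3 := hS x (mem_erase.mp hx).2
    rcases h.val u x (Ne.symm hx1) with h4 | h4 | h4
    · exact absurd h4 h3
    · rw [h4]; simp
    · rw [h4]; simp
  rw [h2, sum_boole]
  have h3 : (S.erase u).filter (fun x => r u x = 1) = S ∩ bd r u := by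
    ext x
    rw [mem_filter, mem_erase, mem_inter, RNE_mem_bd]
    constructor
    · rintro ⟨⟨-, h4⟩, h5⟩
      exact ⟨h4, h5⟩
    · rintro ⟨h4, h5⟩
      refine ⟨⟨?_, h4⟩, h5⟩
      rintro rfl
      have := h.diag x
      omega
  rw [h3]

theorem RD4 (hRTT : RTT_stmt) (hRNE : RNE_stmt) : RD4_stmt := by
  intro V _ _ r h hk w u b hu hb hub
  have h1 := hRTT V r h hk w b hb u
  have hmem : u ∈ bd r w ∩ ad r b :=
    mem_inter.mpr ⟨(RNE_mem_bd r w u).mpr hu, (RNE_mem_ad r b u).mpr ((h.symm b u).trans hub)⟩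
  rw [RD4_sum r h _ u hmem (fun x hx => hRNE V r h w u x hu
    ((RNE_mem_bd r w x).mp (mem_inter.mp hx).1)), hub, (h.symm u w).trans hu] at h1
  have h2 : ((bd r w ∩ ad r b ∩ bd r u).card : ℤ) = 4 := by omega
  exact_mod_cast h2

theorem RTL (hRNE : RNE_stmt) (hRHF : RHF_stmt) : RTL_stmt := by
  intro V _ _ r h hk w u v hu hv huv
  have h1 := hk w u v
  have hu' := (h.symm u w).trans hu
  have hv' := (h.symm v w).trans hv
  rw [hu', hv'] at h1
  -- the first sum
  have h2 : ∑ x ∈ ad r w, r u x * r v x = ((ad r w ∩ ad r u ∩ ad r v).card : ℤ) := by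
    have h3 : ∑ x ∈ ad r w, r u x * r v x = ∑ x ∈ ad r w, if r u x = -1 ∧ r v x = -1 then 1 else 0 := by
      refine sum_congr rfl fun x hx => ?_
      have hx1 := (RNE_mem_ad r w x).mp hx
      rcases hRHF V r h w u x hu hx1 with h4 | h4 <;> rcases hRHF V r h w v x hv hx1 with h5 | h5 <;>
        rw [h4, h5] <;> simp
    rw [h3, sum_boole]
    have h6 : (ad r w).filter (fun x => r u x = -1 ∧ r v x = -1) = ad r w ∩ ad r u ∩ ad r v := by
      ext x
      rw [mem_filter, mem_inter, mem_inter, RNE_mem_ad, RNE_mem_ad, RNE_mem_ad]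
      tauto
    rw [h6]
  -- the second sum
  have hmu : u ∈ bd r w := (RNE_mem_bd r w u).mpr hu
  have hmv : v ∈ (bd r w).erase u := mem_erase.mpr ⟨Ne.symm huv, (RNE_mem_bd r w v).mpr hv⟩
  have h7 : ∑ x ∈ bd r w, r u x * r v x = 4 * r u v + ((bd r w ∩ bd r u ∩ bd r v).card : ℤ) := by
    rw [← Finset.add_sum_erase _ _ hmu, ← Finset.add_sum_erase _ _ hmv, h.diag, h.diag, h.symm v u]
    have h8 : ∑ x ∈ ((bd r w).erase u).erase v, r u x * r v x =
        ∑ x ∈ ((bd r w).erase u).erase v, if r u x = 1 ∧ r v x = 1 then 1 else 0 := by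
      refine sum_congr rfl fun x hx => ?_
      have hx1 := (mem_erase.mp hx).1
      have hx2 := (mem_erase.mp (mem_erase.mp hx).2).1
      have hx3 := (RNE_mem_bd r w x).mp (mem_erase.mp (mem_erase.mp hx).2).2
      have h9 := hRNE V r h w u x hu hx3
      have h10 := hRNE V r h w v x hv hx3
      rcases h.val u x (Ne.symm hx2) with h4 | h4 | h4
      · exact absurd h4 h9
      · rw [h4]; simp
      · rcases h.val v x (Ne.symm hx1) with h5 | h5 | h5
        · exact absurd h5 h10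
        · rw [h4, h5]; simp
        · rw [h4, h5]; simp
    rw [h8, sum_boole]
    have h9 : (((bd r w).erase u).erase v).filter (fun x => r u x = 1 ∧ r v x = 1) = bd r w ∩ bd r u ∩ bd r v := by
      ext x
      rw [mem_filter, mem_erase, mem_erase, mem_inter, mem_inter, RNE_mem_bd, RNE_mem_bd, RNE_mem_bd]
      constructor
      · rintro ⟨⟨-, -, h4⟩, h5, h6⟩
        exact ⟨⟨h4, h5⟩, h6⟩
      · rintro ⟨⟨h4, h5⟩, h6⟩
        refine ⟨⟨?_, ?_, h4⟩, h5, h6⟩
        · rintro rfl
          have := h.diag x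
          omega
        · rintro rfl
          have := h.diag x
          omega
    rw [h9]
    ring
  rw [h2, h7] at h1
  linarith

end Pool.Agent.KN
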