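import Pool.Agent.helper82.KN.RA

/-!
# Rows kn:RTT, kn:RGE, kn:RL2, kn:RPA, kn:RM2, kn:RCL, kn:REQ
-/

set_option autoImplicit false

open Finset Polynomial

namespace Pool.Agent.KN

/-- the relation between the two sums -/
theorem RTT_one {V : Type} [Fintype V] [DecidableEq V] (r : V → V → ℤ) (h : RBas r) (hk : Krn r) (w b : V)
    (hb : r w b = -1) (z : V) :
    9 * (r z b - r z w) = ∑ x ∈ ad r w ∩ bd r b, r z x - 2 * ∑ x ∈ bd r w ∩ ad r b, r z x := by
  obtain ⟨c, hc⟩ := h.line w b hb
  have hbw : r b w = -1 := (h.symm b w).trans hb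
  have hbc : r b c = -1 := by
    have := hc b
    rw [h.diag, hbw] at this
    omega
  have hwc : r w c = -1 := by
    have := hc w
    rw [h.diag, hb] at this
    omega
  have h1 := hk w z b
  rw [hbw] at h1
  have hbc' : b ≠ c := by
    rintro rfl
    rw [h.diag] at hbc
    omega
  -- the sum over the neighbours of w
  have h2 : ∑ x ∈ ad r w, r z x * r b x = 2 * r z b - r z c + ∑ x ∈ ad r w ∩ bd r b, r z x := by
    have hmb : b ∈ ad r w := (RNE_mem_ad r w b).mpr hb
    have hmc : c ∈ (ad r w).erase b := mem_erase.mpr ⟨Ne.symm hbc', (RNE_mem_ad r w c).mpr hwc⟩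
    rw [← Finset.add_sum_erase _ _ hmb, ← Finset.add_sum_erase _ _ hmc, h.diag, hbc]
    have h3 : ∑ x ∈ ((ad r w).erase b).erase c, r z x * r b x =
        ∑ x ∈ ((ad r w).erase b).erase c, if r b x = 1 then r z x else 0 := by
      refine sum_congr rfl fun x hx => ?_
      have hx1 := (mem_erase.mp hx).1
      have hx2 := (mem_erase.mp (mem_erase.mp hx).2).1
      have hx3 := (RNE_mem_ad r w x).mp (mem_erase.mp (mem_erase.mp hx).2).2
      have h4 := hc x
      have h5 := h.symm x w
      have h6 := h.symm x b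
      rcases h.val b x (Ne.symm hx2) with h7 | h7 | h7
      · rcases h.val x c hx1 with h8 | h8 | h8 <;> omega
      · rw [h7]; simp
      · rw [h7]; simp
    rw [h3, ← sum_filter]
    have h4 : (((ad r w).erase b).erase c).filter (fun x => r b x = 1) = ad r w ∩ bd r b := by
      ext x
      rw [mem_filter, mem_erase, mem_erase, mem_inter, RNE_mem_ad, RNE_mem_bd]
      constructor
      · rintro ⟨⟨-, -, h4⟩, h5⟩
        exact ⟨h4, h5⟩
      · rintro ⟨h4, h5⟩
        refine ⟨⟨?_, ?_, h4⟩, h5⟩
        · rintro rfl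
          omega
        · rintro rfl
          have := h.diag x
          omega
    rw [h4]
    ring
  have h3 : ∑ x ∈ bd r w, r z x * r b x = - ∑ x ∈ bd r w ∩ ad r b, r z x := by
    have h4 : ∑ x ∈ bd r w, r z x * r b x = ∑ x ∈ bd r w, if r b x = -1 then - r z x else 0 := by
      refine sum_congr rfl fun x hx => ?_
      have hx1 := (RNE_mem_bd r w x).mp hx
      rcases RHF V r h w x b hx1 hb with h5 | h5 <;> rw [h.symm b x, h5] <;> simp
    rw [h4, ← sum_filter, sum_neg_distrib]
    have h5 : (bd r w).filter (fun x => r b x = -1) = bd r w ∩ ad r b := by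
      ext x
      rw [mem_filter, mem_inter, RNE_mem_ad]
    rw [h5]
  rw [h2, h3] at h1
  have h4 := hc z
  linarith

theorem RTT : RTT_stmt := by
  intro V _ _ r h hk w b hb z
  have h1 := RTT_one r h hk w b hb z
  have h2 := RTT_one r h hk b w ((h.symm b w).trans hb) z
  rw [inter_comm (ad r b), inter_comm (bd r b)] at h2
  linarith

/-- the closure argument: common B-neighbours of `u`, `v` -/
theorem RGE_one {V : Type} [Fintype V] [DecidableEq V] (r : V → V → ℤ) (h : RBas r) (w u v x : V)
    (hu : r w u = 1) (hv : r w v = 1) (huv : r u v = 0) (hxu : r u x = 1) (hxv : r v x = 1) (hxw : x ≠ w) :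
    0 ≤ r x w ∧ (r x w = 0 → ∀ z, r z x = r z u + r z v - r z w) := by
  have d1 : u ≠ v := by
    rintro rfl
    have := h.diag u
    omega
  have d2 : w ≠ u := by
    rintro rfl
    have := h.diag w
    omega
  have d3 : w ≠ v := by
    rintro rfl
    have := h.diag w
    omega
  have d4 : x ≠ u := by
    rintro rfl
    have := h.diag x
    omega
  have d5 : x ≠ v := by
    rintro rfl
    have := h.diag x
    omega
  let f : V → ℤ := fun y => (if y = x then 1 else 0) + (if y = w then 1 else 0) - (if y = u then 1 else 0) -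
    (if y = v then 1 else 0)
  have hf : ∀ g : V → ℤ, ∑ y, f y * g y = g x + g w - g u - g v := by
    intro g
    have h1 : ∀ y, f y * g y = (if y = x then g y else 0) + (if y = w then g y else 0) - (if y = u then g y else 0) -
        (if y = v then g y else 0) := by
      intro y
      change ((if y = x then (1 : ℤ) else 0) + (if y = w then 1 else 0) - (if y = u then 1 else 0) -
        (if y = v then 1 else 0)) * g y = _
      split_ifs <;> ring
    rw [sum_congr rfl fun y _ => h1 y, sum_sub_distrib, sum_sub_distrib, sum_add_distrib,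
      sum_ite_eq' univ x, sum_ite_eq' univ w, sum_ite_eq' univ u, sum_ite_eq' univ v]
    simp
  have hq : ∑ y, ∑ y', f y * f y' * r y y' = 2 * r x w := by
    have h1 : ∀ y, ∑ y', f y * f y' * r y y' = f y * (r y x + r y w - r y u - r y v) := by
      intro y
      rw [← hf (fun y' => r y y'), mul_sum]
      exact sum_congr rfl fun y' _ => by ring
    rw [sum_congr rfl fun y _ => h1 y, hf (fun y => r y x + r y w - r y u - r y v)]
    have s1 := h.symm u w
    have s2 := h.symm v w
    have s3 := h.symm x u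
    have s4 := h.symm x v
    have s5 := h.symm w x
    have s6 := h.symm v u
    have g1 := h.diag x
    have g2 := h.diag w
    have g3 := h.diag u
    have g4 := h.diag v
    linarith
  constructor
  · have h1 := h.pos f
    rw [hq] at h1
    omega
  · intro h0 z
    have h1 := h.nul f (by rw [hq, h0, mul_zero]) z
    rw [hf (fun y => r z y)] at h1
    linarith

theorem RGE : RGE_stmt := by
  intro V _ _ r h w u v hu hv huv
  have hcc := h.cc u v huv
  have hw : w ∈ bd r u ∩ bd r v := mem_inter.mpr ⟨(RNE_mem_bd r u w).mpr ((h.symm u w).trans hu),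
    (RNE_mem_bd r v w).mpr ((h.symm v w).trans hv)⟩
  have h1 : ((bd r u ∩ bd r v).erase w).card = 3 := by rw [card_erase_of_mem hw, hcc]
  -- those with r x w = 0
  have h2 : (((bd r u ∩ bd r v).erase w).filter (fun x => r x w = 0)).card ≤ 1 := by
    rw [card_le_one]
    intro x hx y hy
    obtain ⟨hx1, hx0⟩ := mem_filter.mp hx
    obtain ⟨hy1, hy0⟩ := mem_filter.mp hy
    obtain ⟨hxw, hx2⟩ := mem_erase.mp hx1
    obtain ⟨hyw, hy2⟩ := mem_erase.mp hy1
    obtain ⟨hx3, hx4⟩ := mem_inter.mp hx2
    obtain ⟨hy3, hy4⟩ := mem_inter.mp hy2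
    have hxx := (RGE_one r h w u v x hu hv huv ((RNE_mem_bd _ _ _).mp hx3) ((RNE_mem_bd _ _ _).mp hx4) hxw).2 hx0
    have hyy := (RGE_one r h w u v y hu hv huv ((RNE_mem_bd _ _ _).mp hy3) ((RNE_mem_bd _ _ _).mp hy4) hyw).2 hy0
    by_contra hn
    have h3 := hxx x
    have h4 := hyy x
    have h5 := h.diag x
    rcases h.val x y hn with h6 | h6 | h6 <;> omega
  have h3 : ((bd r u ∩ bd r v).erase w).filter (fun x => ¬ r x w = 0) ⊆ bd r w ∩ bd r u ∩ bd r v := by
    intro x hx
    obtain ⟨hx1, hx0⟩ := mem_filter.mp hx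
    obtain ⟨hxw, hx2⟩ := mem_erase.mp hx1
    obtain ⟨hx3, hx4⟩ := mem_inter.mp hx2
    have h4 := (RGE_one r h w u v x hu hv huv ((RNE_mem_bd _ _ _).mp hx3) ((RNE_mem_bd _ _ _).mp hx4) hxw).1
    have h5 : r w x = 1 := by
      rw [h.symm w x]
      rcases h.val x w hxw with h6 | h6 | h6
      · omega
      · exact absurd h6 hx0
      · exact h6
    exact mem_inter.mpr ⟨mem_inter.mpr ⟨(RNE_mem_bd _ _ _).mpr h5, hx3⟩, hx4⟩
  have h4 := card_le_card h3
  have h5 := card_filter_add_card_filter_not (s := (bd r u ∩ bd r v).erase w) (fun x => r x w = 0)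
  omega

end Pool.Agent.KN
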