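import Pool.Agent.helper82.KN.RB

/-!
# Rows kn:RL2, kn:RPA, kn:RM2, kn:RCL, kn:REQ
-/

set_option autoImplicit false

open Finset Polynomial

namespace Pool.Agent.KN

/-- double counting -/
theorem RL2_dc {V : Type} [DecidableEq V] (S T : Finset V) (R : V → V → Prop) [DecidableRel R] :
    ∑ b ∈ S, (T.filter (fun x => R b x)).card = ∑ x ∈ T, (S.filter (fun b => R b x)).card := by
  simp_rw [card_filter]
  exact sum_comm

theorem RL2 (hRD4 : RD4_stmt) (hRTL : RTL_stmt) (hRC7 : RC7_stmt) : RL2_stmt := by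
  intro V _ _ r h hk w u hu
  have hu' := (h.symm u w).trans hu
  -- pairs (b, x)
  have h1 : ∑ b ∈ ad r w ∩ ad r u, ((bd r w ∩ bd r u).filter (fun x => r b x = -1)).card = 40 := by
    have h2 : ∀ b ∈ ad r w ∩ ad r u, ((bd r w ∩ bd r u).filter (fun x => r b x = -1)).card = 4 := by
      intro b hb
      obtain ⟨hb1, hb2⟩ := mem_inter.mp hb
      rw [← hRD4 V r h hk w u b hu ((RNE_mem_ad _ _ _).mp hb1) ((RNE_mem_ad _ _ _).mp hb2)]
      congr 1
      ext x
      rw [mem_filter, mem_inter, mem_inter, mem_inter, RNE_mem_ad]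
      tauto
    rw [sum_congr rfl h2, sum_const, h.mu w u hu]
    rfl
  rw [RL2_dc] at h1
  have h3 : ∀ x ∈ bd r w ∩ bd r u, (((ad r w ∩ ad r u).filter (fun b => r b x = -1)).card : ℤ) =
      12 - 2 * ((bd r w ∩ bd r u ∩ bd r x).card : ℤ) := by
    intro x hx
    obtain ⟨hx1, hx2⟩ := mem_inter.mp hx
    have hx3 := (RNE_mem_bd _ _ _).mp hx2
    have hux : u ≠ x := by
      rintro rfl
      have := h.diag u
      omega
    have h4 := hRTL V r h hk w u x hu ((RNE_mem_bd _ _ _).mp hx1) hux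
    have h5 : (ad r w ∩ ad r u).filter (fun b => r b x = -1) = ad r w ∩ ad r u ∩ ad r x := by
      ext b
      rw [mem_filter, mem_inter, mem_inter, mem_inter, RNE_mem_ad, RNE_mem_ad, RNE_mem_ad, h.symm b x]
    rw [h5, h4, hx3]
    ring
  have h4 : (∑ x ∈ bd r w ∩ bd r u, (((ad r w ∩ ad r u).filter (fun b => r b x = -1)).card : ℤ)) = 40 := by
    exact_mod_cast h1
  rw [sum_congr rfl h3, sum_sub_distrib, sum_const, hRC7 V r h w u hu, ← mul_sum] at h4
  have h5 : (∑ x ∈ bd r w ∩ bd r u, ((bd r w ∩ bd r u ∩ bd r x).card : ℤ)) = 22 := by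
    have h6 : (7 : ℕ) • (12 : ℤ) = 84 := by norm_num
    rw [h6] at h4
    linarith
  exact_mod_cast h5

theorem RPA (hRNE : RNE_stmt) (hRC7 : RC7_stmt) : RPA_stmt := by
  intro V _ _ r h w u hu
  have hu' := (h.symm u w).trans hu
  have h1 : ∑ x ∈ bd r w ∩ bd r u, (((bd r w).erase u).filter (fun y => r x y = 1)).card = 42 := by
    have h2 : ∀ x ∈ bd r w ∩ bd r u, (((bd r w).erase u).filter (fun y => r x y = 1)).card = 6 := by
      intro x hx
      obtain ⟨hx1, hx2⟩ := mem_inter.mp hx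
      have hx3 := (RNE_mem_bd _ _ _).mp hx1
      have hx4 := (RNE_mem_bd _ _ _).mp hx2
      have h3 := hRC7 V r h w x hx3
      have h4 : ((bd r w).erase u).filter (fun y => r x y = 1) = (bd r w ∩ bd r x).erase u := by
        ext y
        rw [mem_filter, mem_erase, mem_erase, mem_inter, RNE_mem_bd, RNE_mem_bd]
        tauto
      have h5 : u ∈ bd r w ∩ bd r x := mem_inter.mpr ⟨(RNE_mem_bd _ _ _).mpr hu,
        (RNE_mem_bd _ _ _).mpr ((h.symm x u).trans hx4)⟩
      rw [h4, card_erase_of_mem h5, h3]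
    rw [sum_congr rfl h2, sum_const, hRC7 V r h w u hu]
    rfl
  rw [RL2_dc] at h1
  have h2 : ∀ y ∈ (bd r w).erase u, ((bd r w ∩ bd r u).filter (fun x => r x y = 1)).card =
      (bd r w ∩ bd r u ∩ bd r y).card := by
    intro y _
    congr 1
    ext x
    rw [mem_filter, mem_inter, mem_inter, mem_inter, RNE_mem_bd, RNE_mem_bd, RNE_mem_bd, h.symm x y]
  rw [sum_congr rfl h2] at h1
  have h3 : (bd r w).erase u = (bd r w ∩ bd r u) ∪ (bd r w).filter (fun x => r u x = 0) := by
    ext y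
    rw [mem_erase, mem_union, mem_inter, mem_filter, RNE_mem_bd, RNE_mem_bd]
    constructor
    · rintro ⟨h4, h5⟩
      have h6 := hRNE V r h w u y hu h5
      rcases h.val u y (Ne.symm h4) with h7 | h7 | h7
      · exact absurd h7 h6
      · exact Or.inr ⟨h5, h7⟩
      · exact Or.inl ⟨h5, h7⟩
    · rintro (⟨h4, h5⟩ | ⟨h4, h5⟩)
      · refine ⟨?_, h4⟩
        rintro rfl
        have := h.diag y
        omega
      · refine ⟨?_, h4⟩
        rintro rfl
        have := h.diag y
        omega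
  have h4 : Disjoint (bd r w ∩ bd r u) ((bd r w).filter (fun x => r u x = 0)) := by
    rw [Finset.disjoint_left]
    intro y hy hy'
    have h5 := (RNE_mem_bd _ _ _).mp (mem_inter.mp hy).2
    have h6 := (mem_filter.mp hy').2
    omega
  rw [h3, sum_union h4] at h1
  exact h1

theorem RM2 (hRNE : RNE_stmt) (hRC7 : RC7_stmt) (hRL2 : RL2_stmt) (hRPA : RPA_stmt) (hRGE : RGE_stmt) : RM2_stmt := by
  intro V _ _ r h hk w u v hu hv huv
  have h1 := hRPA V r h w u hu
  rw [hRL2 V r h hk w u hu] at h1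
  have h2 : ∑ x ∈ (bd r w).filter (fun x => r u x = 0), (bd r w ∩ bd r u ∩ bd r x).card = 20 := by omega
  -- 10 elements
  have h3 : ((bd r w).filter (fun x => r u x = 0)).card = 10 := by
    have h4 : (bd r w).filter (fun x => ¬ r u x = 0) = insert u (bd r w ∩ bd r u) := by
      ext y
      rw [mem_filter, mem_insert, mem_inter, RNE_mem_bd, RNE_mem_bd]
      constructor
      · rintro ⟨h5, h6⟩
        by_cases hy : y = u
        · exact Or.inl hy
        · have h7 := hRNE V r h w u y hu h5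
          rcases h.val u y (Ne.symm hy) with h8 | h8 | h8
          · exact absurd h8 h7
          · exact absurd h8 h6
          · exact Or.inr ⟨h5, h8⟩
      · rintro (rfl | ⟨h5, h6⟩)
        · exact ⟨hu, by rw [h.diag]; norm_num⟩
        · exact ⟨h5, by rw [h6]; norm_num⟩
    have h5 : u ∉ bd r w ∩ bd r u := by
      intro h6
      have h7 := (RNE_mem_bd _ _ _).mp (mem_inter.mp h6).2
      rw [h.diag] at h7
      omega
    have h6 := card_filter_add_card_filter_not (s := bd r w) (fun x => r u x = 0)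
    rw [h4, card_insert_of_notMem h5, hRC7 V r h w u hu, h.nb] at h6
    omega
  have h4 : ∀ x ∈ (bd r w).filter (fun x => r u x = 0), 2 ≤ (bd r w ∩ bd r u ∩ bd r x).card := by
    intro x hx
    obtain ⟨hx1, hx2⟩ := mem_filter.mp hx
    exact hRGE V r h w u x hu ((RNE_mem_bd _ _ _).mp hx1) hx2
  have h5 : ∑ x ∈ (bd r w).filter (fun x => r u x = 0), 2 =
      ∑ x ∈ (bd r w).filter (fun x => r u x = 0), (bd r w ∩ bd r u ∩ bd r x).card := by
    rw [h2, sum_const, h3]
    rfl
  have h6 := (sum_eq_sum_iff_of_le h4).mp h5 v (mem_filter.mpr ⟨(RNE_mem_bd _ _ _).mpr hv, huv⟩)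
  exact h6.symm

theorem RCL (hRM2 : RM2_stmt) : RCL_stmt := by
  intro V _ _ r h hk w u v hu hv huv
  have hcc := h.cc u v huv
  have hw : w ∈ bd r u ∩ bd r v := mem_inter.mpr ⟨(RNE_mem_bd r u w).mpr ((h.symm u w).trans hu),
    (RNE_mem_bd r v w).mpr ((h.symm v w).trans hv)⟩
  have h1 : ((bd r u ∩ bd r v).erase w).card = 3 := by rw [card_erase_of_mem hw, hcc]
  have h2 := hRM2 V r h hk w u v hu hv huv
  -- some x is not in bd w
  have h3 : ∃ x ∈ (bd r u ∩ bd r v).erase w, r w x ≠ 1 := by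
    by_contra hn
    have h4 : (bd r u ∩ bd r v).erase w ⊆ bd r w ∩ bd r u ∩ bd r v := by
      intro x hx
      obtain ⟨hx3, hx4⟩ := mem_inter.mp (mem_erase.mp hx).2
      have h5 : r w x = 1 := by
        by_contra hc
        exact hn ⟨x, hx, hc⟩
      exact mem_inter.mpr ⟨mem_inter.mpr ⟨(RNE_mem_bd _ _ _).mpr h5, hx3⟩, hx4⟩
    have h5 := card_le_card h4
    omega
  obtain ⟨x, hx, hxw⟩ := h3
  obtain ⟨hx1, hx2⟩ := mem_erase.mp hx
  obtain ⟨hx3, hx4⟩ := mem_inter.mp hx2
  have h4 := RGE_one r h w u v x hu hv huv ((RNE_mem_bd _ _ _).mp hx3) ((RNE_mem_bd _ _ _).mp hx4) hx1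
  refine ⟨x, h4.2 ?_⟩
  have h5 := h.symm x w
  rcases h.val x w hx1 with h6 | h6 | h6
  · have := h4.1
    omega
  · exact h6
  · omega

theorem REQ : REQ_stmt := by
  intro V _ _ r h hC hN w u x y v hwu hx hy hv hxy hyv hxv
  obtain ⟨hx1, hx2⟩ := mem_inter.mp hx
  obtain ⟨hy1, hy2⟩ := mem_inter.mp hy
  obtain ⟨hv1, hv2⟩ := mem_inter.mp hv
  rw [RNE_mem_bd] at hx1 hx2 hy1 hy2 hv1 hv2
  by_contra hn
  have h0 : r x v = 0 := by
    rcases h.val x v hxv with h1 | h1 | h1
    · exact absurd h1 (hN w x v hx1 hv1)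
    · exact h1
    · exact absurd h1 hn
  obtain ⟨w', hw'⟩ := hC w x v hx1 hv1 h0
  obtain ⟨u', hu'⟩ := hC u x v hx2 hv2 h0
  have hvx : r v x = 0 := (h.symm v x).trans h0
  -- the four elements
  have e1 : w ∈ bd r x ∩ bd r v := mem_inter.mpr ⟨(RNE_mem_bd _ _ _).mpr ((h.symm x w).trans hx1),
    (RNE_mem_bd _ _ _).mpr ((h.symm v w).trans hv1)⟩
  have e2 : u ∈ bd r x ∩ bd r v := mem_inter.mpr ⟨(RNE_mem_bd _ _ _).mpr ((h.symm x u).trans hx2),
    (RNE_mem_bd _ _ _).mpr ((h.symm v u).trans hv2)⟩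
  have e3 : y ∈ bd r x ∩ bd r v := mem_inter.mpr ⟨(RNE_mem_bd _ _ _).mpr hxy,
    (RNE_mem_bd _ _ _).mpr ((h.symm v y).trans hyv)⟩
  have dx := h.diag x
  have dv := h.diag v
  have dw := h.diag w
  have du := h.diag u
  have sxw := h.symm x w
  have svw := h.symm v w
  have sxu := h.symm x u
  have svu := h.symm v u
  have e4 : w' ∈ bd r x ∩ bd r v := by
    refine mem_inter.mpr ⟨(RNE_mem_bd _ _ _).mpr ?_, (RNE_mem_bd _ _ _).mpr ?_⟩
    · have := hw' x
      omega
    · have := hw' v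
      omega
  have e5 : u' ∈ bd r x ∩ bd r v := by
    refine mem_inter.mpr ⟨(RNE_mem_bd _ _ _).mpr ?_, (RNE_mem_bd _ _ _).mpr ?_⟩
    · have := hu' x
      omega
    · have := hu' v
      omega
  have h1 : r w w' = 0 := by
    have := hw' w
    omega
  have h2 : r u u' = 0 := by
    have := hu' u
    omega
  have hne : u' ≠ w' := by
    rintro rfl
    have h3 := hw' u
    have h4 := hu' u
    have h5 := h.symm u w
    omega
  have hcc := h.cc x v h0
  -- five different elements
  have n1 : w ≠ u := by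
    rintro rfl
    omega
  have n2 : w ≠ y := by
    rintro rfl
    omega
  have n3 : u ≠ y := by
    rintro rfl
    omega
  have n4 : w ≠ w' := by
    rintro rfl
    omega
  have n5 : u ≠ u' := by
    rintro rfl
    omega
  have n6 : y ≠ w' := by
    rintro rfl
    omega
  have n7 : y ≠ u' := by
    rintro rfl
    omega
  have n8 : u ≠ w' := by
    rintro rfl
    omega
  have n9 : w ≠ u' := by
    rintro rfl
    have := h.symm u w
    omega
  have h3 : ({w, u, y, w', u'} : Finset V) ⊆ bd r x ∩ bd r v := by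
    intro z hz
    simp only [mem_insert, mem_singleton] at hz
    rcases hz with rfl | rfl | rfl | rfl | rfl
    · exact e1
    · exact e2
    · exact e3
    · exact e4
    · exact e5
  have h4 : ({w, u, y, w', u'} : Finset V).card = 5 := by
    rw [card_insert_of_notMem, card_insert_of_notMem, card_insert_of_notMem, card_insert_of_notMem, card_singleton]
    · simp only [mem_singleton]
      exact Ne.symm hne
    · simp only [mem_insert, mem_singleton]
      rintro (h5 | h5)
      · exact n6 h5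
      · exact n7 h5
    · simp only [mem_insert, mem_singleton]
      rintro (h5 | h5 | h5)
      · exact n3 h5
      · exact n8 h5
      · exact n5 h5
    · simp only [mem_insert, mem_singleton]
      rintro (h5 | h5 | h5 | h5)
      · exact n1 h5
      · exact n2 h5
      · exact n4 h5
      · exact n9 h5
  have h5 := card_le_card h3
  omega

end Pool.Agent.KN
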