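import Pool.Agent.helper82.KN.RC

/-!
# Rows kn:RSP, kn:RSE
-/

set_option autoImplicit false

open Finset Polynomial

namespace Pool.Agent.KN

theorem RSP : RSP_stmt := by
  intro V _ N R _ hN hirr hsym htr hsum hge
  -- the class of x
  let c : V → Finset V := fun x => insert x (N.filter (fun y => R x y))
  have hcc : ∀ x, (c x).card = (N.filter (fun y => R x y)).card + 1 := by
    intro x
    refine card_insert_of_notMem ?_
    intro h
    exact hirr x (mem_filter.mp h).2
  have hcN : ∀ x ∈ N, c x ⊆ N := by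
    intro x hx y hy
    rcases mem_insert.mp hy with rfl | h
    · exact hx
    · exact (mem_filter.mp h).1
  have hcR : ∀ x ∈ N, ∀ y ∈ c x, ∀ z ∈ c x, y ≠ z → R y z := by
    intro x hx y hy z hz hyz
    rcases mem_insert.mp hy with rfl | h1
    · rcases mem_insert.mp hz with rfl | h2
      · exact absurd rfl hyz
      · exact (mem_filter.mp h2).2
    · rcases mem_insert.mp hz with rfl | h2
      · exact hsym _ _ (mem_filter.mp h1).2
      · exact htr y (mem_filter.mp h1).1 x hx z (mem_filter.mp h2).1 (hsym _ _ (mem_filter.mp h1).2)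
          (mem_filter.mp h2).2 hyz
  -- elements outside the class are not related to elements of the class
  have hout : ∀ x ∈ N, ∀ y ∈ c x, ∀ z ∈ N, z ∉ c x → ¬ R y z := by
    intro x hx y hy z hz hzc hR
    rcases mem_insert.mp hy with rfl | h1
    · exact hzc (mem_insert_of_mem (mem_filter.mpr ⟨hz, hR⟩))
    · have hxz : x ≠ z := by
        rintro rfl
        exact hzc (mem_insert_self _ _)
      exact hzc (mem_insert_of_mem (mem_filter.mpr ⟨hz, htr x hx y (mem_filter.mp h1).1 z hz
        (mem_filter.mp h1).2 hR hxz⟩))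
  have hsum' : ∑ x ∈ N, (c x).card = 29 := by
    rw [sum_congr rfl fun x _ => hcc x, sum_add_distrib, hsum, sum_const, hN]
    rfl
  -- a large class
  obtain ⟨x, hx, hx5⟩ : ∃ x ∈ N, 5 ≤ (c x).card := by
    by_contra hn
    have h1 : ∑ x ∈ N, (c x).card ≤ ∑ x ∈ N, 4 := by
      refine sum_le_sum fun x hx => ?_
      by_contra h2
      exact hn ⟨x, hx, by omega⟩
    rw [hsum', sum_const, hN] at h1
    norm_num at h1
  have hsub := hcN x hx
  have hle := card_le_card hsub
  rw [hN] at hle
  -- elements of the class have the same class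
  have hsame : ∀ y ∈ c x, c y = c x := by
    intro y hy
    have hyN := hsub hy
    ext z
    constructor
    · intro hz
      by_contra hzc
      rcases mem_insert.mp hz with rfl | h1
      · exact hzc hy
      · exact hout x hx y hy z (mem_filter.mp h1).1 hzc (mem_filter.mp h1).2
    · intro hz
      by_cases hyz : y = z
      · rw [hyz]
        exact mem_insert_self _ _
      · exact mem_insert_of_mem (mem_filter.mpr ⟨hsub hz, hcR x hx y hy z hz hyz⟩)
  have hsplit : ∑ y ∈ N, (c y).card = (c x).card * (c x).card + ∑ y ∈ N \ c x, (c y).card := by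
    rw [← sum_sdiff hsub, add_comm]
    congr 1
    rw [sum_congr rfl fun y hy => by rw [hsame y hy], sum_const, smul_eq_mul]
  have hD : (N \ c x).card = 7 - (c x).card := by
    rw [card_sdiff_of_subset hsub, hN]
  -- classes of elements outside are outside
  have hDc : ∀ y ∈ N \ c x, c y ⊆ N \ c x := by
    intro y hy z hz
    obtain ⟨hyN, hyc⟩ := mem_sdiff.mp hy
    refine mem_sdiff.mpr ⟨hcN y hyN hz, fun hzc => ?_⟩
    rcases mem_insert.mp hz with rfl | h1
    · exact hyc hzc
    · exact hout x hx z hzc y hyN hyc (hsym _ _ (mem_filter.mp h1).2)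
  have hD2 : ∀ y ∈ N \ c x, 2 ≤ (c y).card ∧ (c y).card ≤ 7 - (c x).card := by
    intro y hy
    refine ⟨?_, ?_⟩
    · rw [hcc]
      have := hge y (mem_sdiff.mp hy).1
      omega
    · rw [← hD]
      exact card_le_card (hDc y hy)
  have h5 : (c x).card = 5 := by
    rcases Nat.lt_or_ge (c x).card 6 with h6 | h6
    · omega
    · exfalso
      have h7 : (c x).card = 6 ∨ (c x).card = 7 := by omega
      rcases h7 with h7 | h7
      · rw [h7] at hD
        obtain ⟨y, hy⟩ := card_pos.mp (show 0 < (N \ c x).card by omega)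
        have := hD2 y hy
        omega
      · rw [h7, hsum'] at hsplit
        omega
  rw [h5] at hD
  have hD' : (N \ c x).card = 2 := by omega
  obtain ⟨a0, a1, ha, hset⟩ := card_eq_two.mp hD'
  have ha0 : a0 ∈ N \ c x := by rw [hset]; simp
  have ha1 : a1 ∈ N \ c x := by rw [hset]; simp
  have hR01 : R a0 a1 := by
    have h1 := (hD2 a0 ha0).1
    have h2 := hDc a0 ha0
    rw [hcc] at h1
    obtain ⟨z, hz⟩ := card_pos.mp (show 0 < (N.filter (fun y => R a0 y)).card by omega)
    have h3 : z ∈ N \ c x := h2 (mem_insert_of_mem hz)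
    rw [hset] at h3
    simp only [mem_insert, mem_singleton] at h3
    rcases h3 with rfl | rfl
    · exact absurd (mem_filter.mp hz).2 (hirr _)
    · exact (mem_filter.mp hz).2
  let b : Fin 5 ≃ c x := (Fintype.equivFinOfCardEq (by rw [Fintype.card_coe, h5])).symm
  refine ⟨![a0, a1], fun j => (b j : V), ?_, ?_, ?_, ?_, ?_, ?_, ?_⟩
  · intro i j hij
    fin_cases i <;> fin_cases j
    · rfl
    · exact absurd hij ha
    · exact absurd hij (Ne.symm ha)
    · rfl
  · intro i j hij
    exact b.injective (Subtype.ext hij)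
  · intro i
    fin_cases i
    · exact (mem_sdiff.mp ha0).1
    · exact (mem_sdiff.mp ha1).1
  · intro j
    exact hsub (b j).2
  · intro i j hij
    fin_cases i <;> fin_cases j
    · exact absurd rfl hij
    · exact hR01
    · exact hsym _ _ hR01
    · exact absurd rfl hij
  · intro i j hij
    refine hcR x hx _ (b i).2 _ (b j).2 ?_
    intro h
    exact hij (b.injective (Subtype.ext h))
  · intro i j
    have hi : ![a0, a1] i ∈ N \ c x := by
      fin_cases i
      · exact ha0
      · exact ha1
    refine ⟨?_, ?_⟩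
    · intro h
      rw [h] at hi
      exact (mem_sdiff.mp hi).2 (b j).2
    · intro h
      exact hout x hx (b j) (b j).2 _ (mem_sdiff.mp hi).1 (mem_sdiff.mp hi).2 (hsym _ _ h)

theorem RSE (hRNE : RNE_stmt) (hRC7 : RC7_stmt) (hRL2 : RL2_stmt) (hRTL : RTL_stmt) (hREQ : REQ_stmt) (hRSP : RSP_stmt) : RSE_stmt := by
  intro V _ _ r h hk hC
  have hne : Nonempty V := by
    rw [← Fintype.card_pos_iff, h.card]
    norm_num
  obtain ⟨w⟩ := hne
  obtain ⟨u, hu0⟩ := card_pos.mp (show 0 < (bd r w).card by rw [h.nb]; norm_num)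
  have hu := (RNE_mem_bd _ _ _).mp hu0
  have hf : ∀ x, (bd r w ∩ bd r u).filter (fun y => r x y = 1) = bd r w ∩ bd r u ∩ bd r x := by
    intro x
    ext y
    rw [mem_filter, mem_inter, mem_inter, mem_inter, RNE_mem_bd, RNE_mem_bd, RNE_mem_bd]
  obtain ⟨a, b, hai, hbi, haN, hbN, haa, hbb, hab⟩ := hRSP V (bd r w ∩ bd r u) (fun x y => r x y = 1)
    (hRC7 V r h w u hu)
    (fun x hx => by
      have := h.diag x
      omega)
    (fun x y hxy => (h.symm y x).trans hxy)
    (fun x hx y hy z hz hxy hyz hxz => hREQ V r h hC (fun w u v h1 h2 => hRNE V r h w u v h1 h2) w u x y z hu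
      hx hy hz hxy hyz hxz)
    (by
      rw [sum_congr rfl fun x _ => by rw [hf x]]
      exact hRL2 V r h hk w u hu)
    (fun x hx => by
      rw [hf x]
      obtain ⟨hx1, hx2⟩ := mem_inter.mp hx
      have hx3 := (RNE_mem_bd _ _ _).mp hx2
      have hux : u ≠ x := by
        rintro rfl
        have := h.diag u
        omega
      have h4 := hRTL V r h hk w u x hu ((RNE_mem_bd _ _ _).mp hx1) hux
      have h5 : (ad r w ∩ ad r u ∩ ad r x).card ≤ 10 := by
        rw [← h.mu w u hu]
        exact card_le_card inter_subset_left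
      rw [hx3] at h4
      omega)
  have haw : ∀ i, r w (a i) = 1 := fun i => (RNE_mem_bd _ _ _).mp (mem_inter.mp (haN i)).1
  have hau : ∀ i, r u (a i) = 1 := fun i => (RNE_mem_bd _ _ _).mp (mem_inter.mp (haN i)).2
  have hbw : ∀ i, r w (b i) = 1 := fun i => (RNE_mem_bd _ _ _).mp (mem_inter.mp (hbN i)).1
  have hbu : ∀ i, r u (b i) = 1 := fun i => (RNE_mem_bd _ _ _).mp (mem_inter.mp (hbN i)).2
  have hab0 : ∀ i j, r (a i) (b j) = 0 := by
    intro i j
    obtain ⟨h1, h2⟩ := hab i j
    rcases h.val (a i) (b j) h1 with h3 | h3 | h3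
    · exact absurd h3 (hRNE V r h w (a i) (b j) (haw i) (hbw j))
    · exact h3
    · exact absurd h3 h2
  have sy := h.symm
  have dg := h.diag
  refine ⟨![w, u, a 0, a 1, b 0, b 1, b 2, b 3, b 4], ?_⟩
  intro i j
  have e1 : ∀ i, r (a i) w = 1 := fun i => (sy _ _).trans (haw i)
  have e2 : ∀ i, r (a i) u = 1 := fun i => (sy _ _).trans (hau i)
  have e3 : ∀ i, r (b i) w = 1 := fun i => (sy _ _).trans (hbw i)
  have e4 : ∀ i, r (b i) u = 1 := fun i => (sy _ _).trans (hbu i)
  have e5 : ∀ i j, r (b i) (a j) = 0 := fun i j => (sy _ _).trans (hab0 j i)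
  have e6 : r u w = 1 := (sy _ _).trans hu
  have e7 : ∀ i j, i ≠ j → r (a i) (a j) = 1 := fun i j hij => haa i j hij
  have e8 : ∀ i j, i ≠ j → r (b i) (b j) = 1 := fun i j hij => hbb i j hij
  fin_cases i <;> fin_cases j <;>
    simp [sd, haw, hau, hbw, hbu, hab0, e1, e2, e3, e4, e5, e6, e7, e8, hu, dg]

end Pool.Agent.KN
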