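import Pool.Agent.helper82.KN.Spec

/-!
# Rows kn:RPT, kn:RST
-/

set_option autoImplicit false

open Finset Polynomial

namespace Pool.Agent.KN

/-- the nine sums -/
theorem RPT_sum (p : Fin 9 → ℚ) : ∑ k ∈ sd 0, p k = p 0 + p 1 + p 2 ∧ ∑ k ∈ sd 1, p k = p 0 + p 1 + p 3 ∧
    ∑ k ∈ sd 2, p k = p 0 + p 2 + p 3 ∧ ∑ k ∈ sd 3, p k = p 1 + p 2 + p 3 ∧ ∑ k ∈ sd 4, p k = p 0 + p 1 + p 4 ∧
    ∑ k ∈ sd 5, p k = p 0 + p 1 + p 5 ∧ ∑ k ∈ sd 6, p k = p 0 + p 1 + p 6 ∧ ∑ k ∈ sd 7, p k = p 0 + p 1 + p 7 ∧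
    ∑ k ∈ sd 8, p k = p 0 + p 1 + p 8 := by
  have h3 : ∀ a b c : Fin 9, a ≠ b → a ≠ c → b ≠ c → ∑ k ∈ ({a, b, c} : Finset (Fin 9)), p k = p a + p b + p c := by
    intro a b c h1 h2 h3
    rw [sum_insert, sum_insert, sum_singleton, add_assoc]
    · simpa using h3
    · simp only [mem_insert, mem_singleton]
      rintro (h | h)
      · exact h1 h
      · exact h2 h
  refine ⟨?_, ?_, ?_, ?_, ?_, ?_, ?_, ?_, ?_⟩ <;> exact h3 _ _ _ (by decide) (by decide) (by decide)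

theorem RPT : RPT_stmt := by
  constructor
  · intro q
    let p0 : ℚ := (q 0 + (q 2 - q 3) + (q 2 - q 3 + (q 1 - q 2))) / 3
    let p1 : ℚ := p0 - (q 2 - q 3)
    let p2 : ℚ := p1 - (q 1 - q 2)
    let p3 : ℚ := p2 - (q 0 - q 1)
    refine ⟨![p0, p1, p2, p3, p3 + (q 4 - q 1), p3 + (q 5 - q 1), p3 + (q 6 - q 1), p3 + (q 7 - q 1), p3 + (q 8 - q 1)], ?_⟩
    obtain ⟨g0, g1, g2, g3, g4, g5, g6, g7, g8⟩ := RPT_sum
      ![p0, p1, p2, p3, p3 + (q 4 - q 1), p3 + (q 5 - q 1), p3 + (q 6 - q 1), p3 + (q 7 - q 1), p3 + (q 8 - q 1)]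
    intro i
    fin_cases i
    · refine g0.trans ?_
      change p0 + p1 + p2 = q 0
      simp only [p1, p2, p0]
      ring
    · refine g1.trans ?_
      change p0 + p1 + p3 = q 1
      simp only [p1, p2, p3, p0]
      ring
    · refine g2.trans ?_
      change p0 + p2 + p3 = q 2
      simp only [p1, p2, p3, p0]
      ring
    · refine g3.trans ?_
      change p1 + p2 + p3 = q 3
      simp only [p1, p2, p3, p0]
      ring
    · refine g4.trans ?_
      change p0 + p1 + (p3 + (q 4 - q 1)) = q 4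
      simp only [p1, p2, p3, p0]
      ring
    · refine g5.trans ?_
      change p0 + p1 + (p3 + (q 5 - q 1)) = q 5
      simp only [p1, p2, p3, p0]
      ring
    · refine g6.trans ?_
      change p0 + p1 + (p3 + (q 6 - q 1)) = q 6
      simp only [p1, p2, p3, p0]
      ring
    · refine g7.trans ?_
      change p0 + p1 + (p3 + (q 7 - q 1)) = q 7
      simp only [p1, p2, p3, p0]
      ring
    · refine g8.trans ?_
      change p0 + p1 + (p3 + (q 8 - q 1)) = q 8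
      simp only [p1, p2, p3, p0]
      ring
  · intro p p' h
    obtain ⟨g0, g1, g2, g3, g4, g5, g6, g7, g8⟩ := RPT_sum p
    obtain ⟨f0, f1, f2, f3, f4, f5, f6, f7, f8⟩ := RPT_sum p'
    have k0 := h 0
    have k1 := h 1
    have k2 := h 2
    have k3 := h 3
    have k4 := h 4
    have k5 := h 5
    have k6 := h 6
    have k7 := h 7
    have k8 := h 8
    rw [g0, f0] at k0
    rw [g1, f1] at k1
    rw [g2, f2] at k2
    rw [g3, f3] at k3
    rw [g4, f4] at k4
    rw [g5, f5] at k5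
    rw [g6, f6] at k6
    rw [g7, f7] at k7
    rw [g8, f8] at k8
    funext i
    fin_cases i
    · change p 0 = p' 0
      linarith
    · change p 1 = p' 1
      linarith
    · change p 2 = p' 2
      linarith
    · change p 3 = p' 3
      linarith
    · change p 4 = p' 4
      linarith
    · change p 5 = p' 5
      linarith
    · change p 6 = p' 6
      linarith
    · change p 7 = p' 7
      linarith
    · change p 8 = p' 8
      linarith

/-- the conditions of a closure step -/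
def RST_c (a b c t : Finset (Fin 9)) : Prop := a.card = 3 ∧ b.card = 3 ∧ c.card = 3 ∧ t.card = 3 ∧ (a ∩ c).card = 2 ∧
  (b ∩ c).card = 2 ∧ (a ∩ b).card = 1 ∧
  ∀ k, ((if k ∈ t then 1 else 0) + (if k ∈ c then 1 else 0) : ℤ) = (if k ∈ a then 1 else 0) + (if k ∈ b then 1 else 0)

instance (a b c t : Finset (Fin 9)) : Decidable (RST_c a b c t) := by
  unfold RST_c
  infer_instance

theorem RST_d1 : ∀ j : Fin 9, 4 ≤ j → sd j = {0, 1, j} := by decide

theorem RST_d2 : ∀ j : Fin 9, 4 ≤ j → RST_c {0, 2, 3} {0, 1, j} {0, 1, 3} {0, 2, j} := by decide +kernel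

theorem RST_d3 : ∀ j : Fin 9, 4 ≤ j → RST_c {1, 2, 3} {0, 1, j} {0, 1, 3} {1, 2, j} := by decide +kernel

theorem RST_d4 : ∀ j k : Fin 9, 3 ≤ j → 3 ≤ k → j ≠ k → RST_c {0, 1, j} {0, 2, k} {0, 1, 2} {0, j, k} ∧
    RST_c {0, 1, j} {1, 2, k} {0, 1, 2} {1, j, k} ∧ RST_c {0, 2, j} {1, 2, k} {0, 1, 2} {2, j, k} := by decide +kernel

theorem RST_d5 : ∀ j k l : Fin 9, 3 ≤ j → 3 ≤ k → 3 ≤ l → j ≠ k → j ≠ l → k ≠ l →
    RST_c {0, j, k} {1, k, l} {0, 1, k} {j, k, l} := by decide +kernel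

theorem RST : RST_stmt := by
  intro Q hs hc
  have hc' : ∀ a b c t, RST_c a b c t → Q a → Q b → Q c → Q t := by
    rintro a b c t ⟨h1, h2, h3, h4, h5, h6, h7, h8⟩ ha hb hcc
    exact hc a b c t h1 h2 h3 h4 h5 h6 h7 h8 ha hb hcc
  have q012 : Q {0, 1, 2} := hs 0
  have q01 : ∀ j : Fin 9, 3 ≤ j → Q {0, 1, j} := by
    intro j hj
    by_cases h : j = 3
    · rw [h]
      exact hs 1
    · have h4 : 4 ≤ j := by
        have h1 : j.val ≠ 3 := fun h' => h (Fin.ext h')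
        have h2 : 3 ≤ j.val := hj
        change 4 ≤ j.val
        omega
      rw [← RST_d1 j h4]
      exact hs j
  have q02 : ∀ j : Fin 9, 3 ≤ j → Q {0, 2, j} := by
    intro j hj
    by_cases h : j = 3
    · rw [h]
      exact hs 2
    · have h4 : 4 ≤ j := by
        have h1 : j.val ≠ 3 := fun h' => h (Fin.ext h')
        have h2 : 3 ≤ j.val := hj
        change 4 ≤ j.val
        omega
      exact hc' _ _ _ _ (RST_d2 j h4) (hs 2) (q01 j hj) (hs 1)
  have q12 : ∀ j : Fin 9, 3 ≤ j → Q {1, 2, j} := by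
    intro j hj
    by_cases h : j = 3
    · rw [h]
      exact hs 3
    · have h4 : 4 ≤ j := by
        have h1 : j.val ≠ 3 := fun h' => h (Fin.ext h')
        have h2 : 3 ≤ j.val := hj
        change 4 ≤ j.val
        omega
      exact hc' _ _ _ _ (RST_d3 j h4) (hs 3) (q01 j hj) (hs 1)
  have q0 : ∀ j k : Fin 9, 3 ≤ j → 3 ≤ k → j ≠ k → Q {0, j, k} := fun j k hj hk hjk =>
    hc' _ _ _ _ (RST_d4 j k hj hk hjk).1 (q01 j hj) (q02 k hk) q012
  have q1 : ∀ j k : Fin 9, 3 ≤ j → 3 ≤ k → j ≠ k → Q {1, j, k} := fun j k hj hk hjk =>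
    hc' _ _ _ _ (RST_d4 j k hj hk hjk).2.1 (q01 j hj) (q12 k hk) q012
  have q2 : ∀ j k : Fin 9, 3 ≤ j → 3 ≤ k → j ≠ k → Q {2, j, k} := fun j k hj hk hjk =>
    hc' _ _ _ _ (RST_d4 j k hj hk hjk).2.2 (q02 j hj) (q12 k hk) q012
  have q3 : ∀ j k l : Fin 9, 3 ≤ j → 3 ≤ k → 3 ≤ l → j ≠ k → j ≠ l → k ≠ l → Q {j, k, l} :=
    fun j k l hj hk hl h1 h2 h3 => hc' _ _ _ _ (RST_d5 j k l hj hk hl h1 h2 h3) (q0 j k hj hk h1) (q1 k l hk hl h3)
      (q01 k hk)
  -- sorted triples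
  have hsort : ∀ i j k : Fin 9, i < j → j < k → Q {i, j, k} := by
    intro i j k hij hjk
    have h1 : i.val < j.val := hij
    have h2 : j.val < k.val := hjk
    by_cases hi : 3 ≤ i.val
    · exact q3 i j k hi (show 3 ≤ j.val by omega) (show 3 ≤ k.val by omega) (ne_of_lt hij)
        (ne_of_lt (hij.trans hjk)) (ne_of_lt hjk)
    · by_cases hj : 3 ≤ j.val
      · have hk : 3 ≤ k.val := by omega
        have h3 : i = 0 ∨ i = 1 ∨ i = 2 := by
          have h4 : i.val = 0 ∨ i.val = 1 ∨ i.val = 2 := by omega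
          rcases h4 with h4 | h4 | h4
          · exact Or.inl (Fin.ext h4)
          · exact Or.inr (Or.inl (Fin.ext h4))
          · exact Or.inr (Or.inr (Fin.ext h4))
        rcases h3 with rfl | rfl | rfl
        · exact q0 j k hj hk (ne_of_lt hjk)
        · exact q1 j k hj hk (ne_of_lt hjk)
        · exact q2 j k hj hk (ne_of_lt hjk)
      · by_cases hk : 3 ≤ k.val
        · have h3 : (i = 0 ∧ j = 1) ∨ (i = 0 ∧ j = 2) ∨ (i = 1 ∧ j = 2) := by
            have h4 : (i.val = 0 ∧ j.val = 1) ∨ (i.val = 0 ∧ j.val = 2) ∨ (i.val = 1 ∧ j.val = 2) := by omega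
            rcases h4 with ⟨h4, h5⟩ | ⟨h4, h5⟩ | ⟨h4, h5⟩
            · exact Or.inl ⟨Fin.ext h4, Fin.ext h5⟩
            · exact Or.inr (Or.inl ⟨Fin.ext h4, Fin.ext h5⟩)
            · exact Or.inr (Or.inr ⟨Fin.ext h4, Fin.ext h5⟩)
          rcases h3 with ⟨rfl, rfl⟩ | ⟨rfl, rfl⟩ | ⟨rfl, rfl⟩
          · exact q01 k hk
          · exact q02 k hk
          · exact q12 k hk
        · have h3 : i = 0 ∧ j = 1 ∧ k = 2 := by
            refine ⟨Fin.ext ?_, Fin.ext ?_, Fin.ext ?_⟩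
            · change i.val = 0
              omega
            · change j.val = 1
              omega
            · change k.val = 2
              omega
          obtain ⟨rfl, rfl, rfl⟩ := h3
          exact q012
  intro t ht
  obtain ⟨x, y, z, hxy, hxz, hyz, rfl⟩ := card_eq_three.mp ht
  have p1 : ∀ a b c : Fin 9, ({a, b, c} : Finset (Fin 9)) = {b, a, c} := fun a b c => insert_comm a b {c}
  have p2 : ∀ a b c : Fin 9, ({a, b, c} : Finset (Fin 9)) = {a, c, b} := fun a b c => by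
    rw [pair_comm b c]
  rcases lt_or_gt_of_ne hxy with h1 | h1 <;> rcases lt_or_gt_of_ne hyz with h2 | h2 <;>
    rcases lt_or_gt_of_ne hxz with h3 | h3
  · exact hsort x y z h1 h2
  · exact absurd (h1.trans h2) (not_lt_of_gt h3)
  · rw [p2]
    exact hsort x z y h3 h2
  · rw [p2, p1]
    exact hsort z x y h3 h1
  · rw [p1]
    exact hsort y x z h1 h3
  · rw [p1, p2]
    exact hsort y z x h2 h3
  · exact absurd (h2.trans h1) (not_lt_of_gt h3)
  · rw [p1, p2, p1]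
    exact hsort z y x h2 h1

end Pool.Agent.KN
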