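import Pool.Agent.helper82.KN.Spec

/-!
# Row kn:RIS
-/

set_option autoImplicit false

open Finset Polynomial

namespace Pool.Agent.KN

/-- the sum over a set of the indicator function of another set, minus one third -/
theorem RIS_sum (s t : Finset (Fin 9)) (ht : t.card = 3) :
    ∑ k ∈ t, ((if k ∈ s then (1 : ℚ) else 0) - 1 / 3) = ((s ∩ t).card : ℚ) - 1 := by
  rw [sum_sub_distrib, sum_const, ht, sum_boole]
  have h : t.filter (fun k => k ∈ s) = s ∩ t := by
    ext k
    rw [mem_filter, mem_inter]
    tauto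
  rw [h]
  norm_num

theorem RIS_sd : ∀ i : Fin 9, (sd i).card = 3 := by decide

theorem RIS (hRPT : RPT_stmt) (hRST : RST_stmt) : RIS_stmt := by
  intro V _ _ r h hC ⟨v, hv⟩
  obtain ⟨hex, huni⟩ := hRPT
  -- the point functions
  have hp : ∀ z : V, ∃ p : Fin 9 → ℚ, ∀ i, ∑ k ∈ sd i, p k = (r z (v i) : ℚ) := fun z => hex _
  choose p hp using hp
  -- uniqueness: a vertex with known products with the nine vertices
  have hun : ∀ (x : V) (t : Finset (Fin 9)), (∀ j, r x (v j) = ((t ∩ sd j).card : ℤ) - 1) →
      ∀ k, p x k = (if k ∈ t then (1 : ℚ) else 0) - 1 / 3 := by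
    intro x t hx k
    have h1 : p x = fun k => (if k ∈ t then (1 : ℚ) else 0) - 1 / 3 := by
      refine huni _ _ fun i => ?_
      rw [hp x i, RIS_sum t (sd i) (RIS_sd i), hx i]
      push_cast
      ring
    rw [h1]
  have hall : ∀ t : Finset (Fin 9), t.card = 3 → t.card = 3 ∧ ∃ x : V, (∀ z, (r z x : ℚ) = ∑ k ∈ t, p z k) ∧
      ∀ k, p x k = (if k ∈ t then (1 : ℚ) else 0) - 1 / 3 := by
    refine hRST _ (fun i => ⟨RIS_sd i, v i, fun z => (hp z i).symm, hun (v i) (sd i) fun j => ?_⟩) ?_
    · exact hv i j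
    · rintro a b c t ha hb hc ht hac hbc hab hind ⟨-, xa, hxa, hpa⟩ ⟨-, xb, hxb, hpb⟩ ⟨-, xc, hxc, hpc⟩
      have e1 : r xc xa = 1 := by
        have h1 : (r xc xa : ℚ) = 1 := by
          rw [hxa xc, sum_congr rfl fun k _ => hpc k, RIS_sum c a ha, inter_comm, hac]
          norm_num
        exact_mod_cast h1
      have e2 : r xc xb = 1 := by
        have h1 : (r xc xb : ℚ) = 1 := by
          rw [hxb xc, sum_congr rfl fun k _ => hpc k, RIS_sum c b hb, inter_comm, hbc]
          norm_num
        exact_mod_cast h1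
      have e3 : r xa xb = 0 := by
        have h1 : (r xa xb : ℚ) = 0 := by
          rw [hxb xa, sum_congr rfl fun k _ => hpa k, RIS_sum a b hb, hab]
          norm_num
        exact_mod_cast h1
      obtain ⟨x, hx⟩ := hC xc xa xb e1 e2 e3
      -- sums over t
      have hsum : ∀ g : Fin 9 → ℚ, ∑ k ∈ t, g k = ∑ k ∈ a, g k + ∑ k ∈ b, g k - ∑ k ∈ c, g k := by
        intro g
        have hg : ∀ s : Finset (Fin 9), ∑ k ∈ s, g k = ∑ k, (if k ∈ s then (1 : ℚ) else 0) * g k := by
          intro s
          rw [← sum_subset (subset_univ s)]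
          · refine sum_congr rfl fun k hk => ?_
            rw [if_pos hk, one_mul]
          · intro k _ hk
            rw [if_neg hk, zero_mul]
        rw [hg a, hg b, hg c, hg t, ← sum_add_distrib, ← sum_sub_distrib]
        refine sum_congr rfl fun k _ => ?_
        have h1 := hind k
        have h2 : ((if k ∈ t then (1 : ℚ) else 0) + (if k ∈ c then 1 else 0)) =
            (if k ∈ a then 1 else 0) + (if k ∈ b then 1 else 0) := by
          exact_mod_cast h1
        linear_combination (g k) * h2
      have hz : ∀ z, (r z x : ℚ) = ∑ k ∈ t, p z k := by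
        intro z
        rw [hsum (p z), ← hxa z, ← hxb z, ← hxc z, hx z]
        push_cast
        ring
      refine ⟨ht, x, hz, hun x t fun j => ?_⟩
      have h1 : (r (v j) x : ℚ) = ((sd j ∩ t).card : ℚ) - 1 := by
        rw [hz (v j), sum_congr rfl fun k _ => hun (v j) (sd j) (fun i => hv j i) k, RIS_sum (sd j) t ht]
      rw [h.symm x (v j), inter_comm]
      exact_mod_cast h1
  choose x hx1 hx2 using fun t : V93 => (hall t.1 t.2).2
  have hr : ∀ s t : V93, r (x s) (x t) = ((s.1 ∩ t.1).card : ℤ) - 1 := by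
    intro s t
    have h1 : (r (x s) (x t) : ℚ) = ((s.1 ∩ t.1).card : ℚ) - 1 := by
      rw [hx1 t (x s), sum_congr rfl fun k _ => hx2 s k, RIS_sum s.1 t.1 t.2]
    exact_mod_cast h1
  have hinj : Function.Injective x := by
    intro s t hst
    have h1 := hr s t
    rw [hst, h.diag] at h1
    have h2 : (s.1 ∩ t.1).card = 3 := by omega
    have h3 : s.1 ∩ t.1 = s.1 := eq_of_subset_of_card_le inter_subset_left (by rw [h2, s.2])
    have h4 : s.1 ∩ t.1 = t.1 := eq_of_subset_of_card_le inter_subset_right (by rw [h2, t.2])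
    exact Subtype.ext (h3.symm.trans h4)
  have hcard : Fintype.card V93 = Fintype.card V := by
    rw [h.card]
    have h1 : Fintype.card V93 = (powersetCard 3 (univ : Finset (Fin 9))).card := by
      rw [Fintype.card_subtype]
      congr 1
      ext s
      rw [mem_filter, mem_powersetCard]
      simp
    rw [h1, card_powersetCard]
    rfl
  have hbij : Function.Bijective x := (Fintype.bijective_iff_injective_and_card x).mpr ⟨hinj, hcard⟩
  exact ⟨Equiv.ofBijective x hbij, hr⟩

end Pool.Agent.KN
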