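import Pool.Agent.helper82.KN.Spec

/-!
# Project kn (MP_8ffa71_co), rows kn:RK2 and kn:RK3 (ranks in characteristic 2 and 3)
-/

set_option autoImplicit false

open Finset Polynomial

namespace Pool.Agent.KN

section

variable {K : Type} [Field K] {V : Type} [Fintype V] [DecidableEq V]

theorem RK_split (H E : Matrix V V K) (hE : E * E = E) (hc : H * E = E * H) :
    H.rank = (H * E).rank + (H * (1 - E)).rank := by
  have e1 : LinearMap.range H.mulVecLin =
      LinearMap.range (H * E).mulVecLin ⊔ LinearMap.range (H * (1 - E)).mulVecLin := by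
    apply le_antisymm
    · rintro _ ⟨x, rfl⟩
      rw [Submodule.mem_sup]
      refine ⟨_, ⟨x, rfl⟩, _, ⟨x, rfl⟩, ?_⟩
      simp only [Matrix.mulVecLin_apply]
      rw [← Matrix.add_mulVec, ← Matrix.mul_add, add_sub_cancel, Matrix.mul_one]
    · apply sup_le
      · rintro _ ⟨x, rfl⟩
        exact ⟨E.mulVec x, by simp only [Matrix.mulVecLin_apply, Matrix.mulVec_mulVec]⟩
      · rintro _ ⟨x, rfl⟩
        exact ⟨(1 - E).mulVec x, by simp only [Matrix.mulVecLin_apply, Matrix.mulVec_mulVec]⟩
  have e2 : LinearMap.range (H * E).mulVecLin ⊓ LinearMap.range (H * (1 - E)).mulVecLin = ⊥ := by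
    rw [eq_bot_iff]
    rintro y ⟨⟨x, hx⟩, ⟨z, hz⟩⟩
    simp only [Matrix.mulVecLin_apply] at hx hz
    have h1 : E.mulVec y = y := by
      rw [← hx, Matrix.mulVec_mulVec, hc, ← mul_assoc, hE]
    have h2 : E.mulVec y = 0 := by
      rw [← hz, Matrix.mulVec_mulVec, mul_sub, mul_one, mul_sub, ← mul_assoc, ← hc, mul_assoc, hE, sub_self,
        Matrix.zero_mulVec]
    rw [Submodule.mem_bot, ← h1, h2]
  unfold Matrix.rank
  rw [e1]
  have h3 := Submodule.finrank_sup_add_finrank_inf_eq (LinearMap.range (H * E).mulVecLin)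
    (LinearMap.range (H * (1 - E)).mulVecLin)
  rw [e2, finrank_bot, add_zero] at h3
  exact h3

theorem RK_gen (A E : Matrix V V K) (h1 : A * E = E) (h2 : E * A = E)
    (hk : ∀ y, E.mulVec y = 0 → A.mulVec y = y → y = 0) (hE : E * E = E) :
    E.rank = A.charpoly.rootMultiplicity 1 := by
  rw [← Matrix.charpoly_mulVecLin, ← LinearMap.finrank_maxGenEigenspace_eq]
  unfold Matrix.rank
  have h3 : LinearMap.range E.mulVecLin = Module.End.maxGenEigenspace A.mulVecLin 1 := by
    have key : ∀ (k : ℕ) (x : V → K), ((A.mulVecLin - (1 : K) • (1 : Module.End K (V → K))) ^ k) x = 0 → E.mulVec x = x := by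
      intro k
      induction k with
      | zero =>
        intro x hx
        have : x = 0 := hx
        rw [this, Matrix.mulVec_zero]
      | succ k ih =>
        intro x hx
        rw [pow_succ] at hx
        have h4 := ih _ hx
        have h5 : (A.mulVecLin - (1 : K) • (1 : Module.End K (V → K))) x = A.mulVec x - x := by
          simp
        rw [h5, Matrix.mulVec_sub, Matrix.mulVec_mulVec, h2, sub_self] at h4
        have h6 : A.mulVec x = x := (sub_eq_zero.mp h4.symm)
        have h7 : x - E.mulVec x = 0 := by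
          apply hk
          · rw [Matrix.mulVec_sub, Matrix.mulVec_mulVec, hE, sub_self]
          · rw [Matrix.mulVec_sub, Matrix.mulVec_mulVec, h1, h6]
        exact (sub_eq_zero.mp h7).symm
    apply le_antisymm
    · rintro _ ⟨x, rfl⟩
      rw [Module.End.mem_maxGenEigenspace]
      refine ⟨1, ?_⟩
      rw [pow_one]
      have h5 : (A.mulVecLin - (1 : K) • (1 : Module.End K (V → K))) (E.mulVecLin x) = A.mulVec (E.mulVec x) - E.mulVec x := by
        simp
      rw [h5, Matrix.mulVec_mulVec, h1, sub_self]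
    · intro x hx
      rw [Module.End.mem_maxGenEigenspace] at hx
      obtain ⟨k, hk⟩ := hx
      exact ⟨x, key k x hk⟩
  rw [h3]

end

theorem RK_two : (P93 (ZMod 2)).rootMultiplicity 1 = 48 := by
  have h : P93 (ZMod 2) = X ^ 36 * (X - C 1) ^ 48 := by
    unfold P93
    have h20 : (20 : (ZMod 2)[X]) = 0 := by
      rw [← Polynomial.C_ofNat 20, show (OfNat.ofNat 20 : ZMod 2) = 0 by decide, C_0]
    have h10 : (10 : (ZMod 2)[X]) = 0 := by
      rw [← Polynomial.C_ofNat 10, show (OfNat.ofNat 10 : ZMod 2) = 0 by decide, C_0]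
    have h4 : (4 : (ZMod 2)[X]) = 0 := by
      rw [← Polynomial.C_ofNat 4, show (OfNat.ofNat 4 : ZMod 2) = 0 by decide, C_0]
    have h1 : (X + 1 : (ZMod 2)[X]) = X - C 1 := by
      rw [C_1, sub_eq_add_neg]
      congr 1
      rw [← C_1, ← C_neg, show (-1 : ZMod 2) = 1 by decide]
    rw [h20, h10, h4, h1]
    ring
  rw [h, rootMultiplicity_mul_X_sub_C_pow (pow_ne_zero _ X_ne_zero), rootMultiplicity_eq_zero, zero_add]
  simp [IsRoot]

theorem RK_three : (P93 (ZMod 3)).rootMultiplicity 1 = 27 := by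
  have h : P93 (ZMod 3) = (X + 1) ^ 57 * (X - C 1) ^ 27 := by
    unfold P93
    have h20 : (X - 20 : (ZMod 3)[X]) = X + 1 := by
      rw [sub_eq_add_neg]
      congr 1
      rw [← Polynomial.C_ofNat 20, ← C_neg, show (-(OfNat.ofNat 20) : ZMod 3) = 1 by decide, C_1]
    have h10 : (10 : (ZMod 3)[X]) = 1 := by
      rw [← Polynomial.C_ofNat 10, show (OfNat.ofNat 10 : ZMod 3) = 1 by decide, C_1]
    have h4 : (4 : (ZMod 3)[X]) = 1 := by
      rw [← Polynomial.C_ofNat 4, show (OfNat.ofNat 4 : ZMod 3) = 1 by decide, C_1]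
    rw [h20, h10, h4, C_1]
    ring
  have hne : (X + 1 : (ZMod 3)[X]) ≠ 0 := by
    have := Polynomial.X_add_C_ne_zero (1 : ZMod 3)
    rwa [C_1] at this
  rw [h, rootMultiplicity_mul_X_sub_C_pow (pow_ne_zero _ hne), rootMultiplicity_eq_zero, zero_add]
  simp only [IsRoot, eval_pow, eval_add, eval_X, eval_one]
  decide

theorem RK2 : RK2_stmt := by
  intro V _ _ A hP hA
  have hE : (A * A) * (A * A) = A * A := by
    rw [← mul_assoc, hA, hA]
  have hc : A * (A * A) = A * A * A := by rw [mul_assoc]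
  have h1 := RK_split A (A * A) hE hc
  have h2 := RK_gen A (A * A) (by rw [hc, hA]) hA (by
    intro y h3 h4
    rw [← Matrix.mulVec_mulVec, h4, h4] at h3
    exact h3) hE
  rw [hP, RK_two] at h2
  rw [h1, hc, hA, h2]
  congr 2
  rw [mul_sub, mul_one, hc, hA, sub_eq_add_neg, add_comm]
  congr 1
  ext u v
  rw [Matrix.neg_apply]
  have : ∀ x : ZMod 2, -x = x := by decide
  exact this _

theorem RK3 : RK3_stmt := by
  intro V _ _ A hP hA
  set E := (A + 1) * (A + 1) with hEd
  have three : (3 : Matrix V V (ZMod 3)) = 0 := by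
    have h3 : ((3 : ZMod 3) : ZMod 3) = 0 := by decide
    have : (3 : Matrix V V (ZMod 3)) = (3 : ZMod 3) • (1 : Matrix V V (ZMod 3)) := by
      rw [Matrix.smul_one_eq_diagonal]
      rfl
    rw [this, h3, zero_smul]
  have hAE : A * E = E := by
    have : (A - 1) * E = A * E - E := by noncomm_ring
    rw [this] at hA
    exact sub_eq_zero.mp hA
  have hEA : E * A = E := by
    have : E * A = A * E := by rw [hEd]; noncomm_ring
    rw [this, hAE]
  have hEE : E * E = E := by
    have : E * E = (A + 1) * ((A + 1) * E) := by rw [hEd]; noncomm_ring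
    have h5 : (A + 1) * E = E + E := by rw [add_mul, hAE, one_mul]
    rw [this, h5, mul_add, h5]
    have h4 : E + E + (E + E) = 3 * E + E := by noncomm_ring
    rw [h4, three, zero_mul, zero_add]
  have hc : (A + 1) * E = E * (A + 1) := by rw [add_mul, mul_add, hAE, hEA, one_mul, mul_one]
  have h1 := RK_split (A + 1) E hEE hc
  have h2 := RK_gen A E hAE hEA (by
    intro y h3 h4
    have h5 : (A + 1).mulVec y = y + y := by
      rw [Matrix.add_mulVec, Matrix.one_mulVec, h4]
    rw [hEd, ← Matrix.mulVec_mulVec, h5, Matrix.mulVec_add, h5] at h3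
    funext i
    have h6 := congrFun h3 i
    simp only [Pi.add_apply, Pi.zero_apply] at h6 ⊢
    revert h6
    generalize y i = t
    revert t
    decide) hEE
  rw [hP, RK_three] at h2
  have h7 : ((A + 1) * E).rank = E.rank := by
    have h8 : (A + 1) * E = -E := by
      rw [add_mul, hAE, one_mul]
      have h9 : E + E = 3 * E + -E := by noncomm_ring
      rw [h9, three, zero_mul, zero_add]
    have h9 : -E = (-1 : ZMod 3) • E := by rw [neg_smul, one_smul]
    rw [h8, h9, Matrix.rank_smul_of_mem_nonZeroDivisors]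
    exact mem_nonZeroDivisors_of_ne_zero (by decide)
  have h10 : (A + 1) * (1 - E) = A * A - 1 := by
    have h11 : (A + 1) * (1 - E) = A + 1 - (A * E + E) := by noncomm_ring
    rw [h11, hAE]
    have h12 : A + 1 - (E + E) = A * A - 1 + (3 : Matrix V V (ZMod 3)) * (-(A * A) - A) := by
      rw [hEd]; noncomm_ring
    rw [h12, three, zero_mul, add_zero]
  rw [h1, h7, h10, h2]

end Pool.Agent.KN
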