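import Pool.Agent.helper82.KN.Spec

/-!
# Row kn:SPK: the adjacency matrix of K(9,3)
-/

set_option autoImplicit false

open Finset Polynomial

namespace Pool.Agent.KN

/-- sums over `V93` -/
theorem SPK_sum (f : Finset (Fin 9) → ℤ) : ∑ w : V93, f w.1 = ∑ w ∈ powersetCard 3 (univ : Finset (Fin 9)), f w :=
  (Finset.sum_subtype (powersetCard 3 (univ : Finset (Fin 9))) (fun s => by
    rw [mem_powersetCard]
    exact ⟨fun h => h.2, fun h => ⟨subset_univ s, h⟩⟩) f).symm

theorem SPK_adj (u v : V93) : K93.adjMatrix ℤ u v = if Disjoint u.1 v.1 then 1 else 0 := by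
  rw [SimpleGraph.adjMatrix_apply]
  rfl

theorem SPK_card : Fintype.card V93 = 84 := by
  have h1 : Fintype.card V93 = (powersetCard 3 (univ : Finset (Fin 9))).card := by
    rw [Fintype.card_subtype]
    congr 1
    ext s
    rw [mem_filter, mem_powersetCard]
    simp
  rw [h1, card_powersetCard]
  rfl

/-- the 3-subsets of a set -/
theorem SPK_sub (S : Finset (Fin 9)) : (powersetCard 3 (univ : Finset (Fin 9))).filter (fun w => w ⊆ S) = powersetCard 3 S := by
  ext w
  rw [mem_filter, mem_powersetCard, mem_powersetCard]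
  exact ⟨fun h => ⟨h.2, h.1.2⟩, fun h => ⟨⟨subset_univ w, h.2⟩, h.1⟩⟩

theorem SPK_disj (u w : Finset (Fin 9)) : Disjoint u w ↔ w ⊆ uᶜ := by
  rw [Finset.subset_compl_comm, Finset.subset_compl_iff_disjoint_right]

/-- entries of `A²` -/
theorem SPK_two (u v : V93) : (K93.adjMatrix ℤ * K93.adjMatrix ℤ) u v = ((3 + (u.1 ∩ v.1).card).choose 3 : ℤ) := by
  rw [Matrix.mul_apply]
  have h1 : ∀ w : V93, K93.adjMatrix ℤ u w * K93.adjMatrix ℤ w v =
      (fun w : Finset (Fin 9) => if w ⊆ (u.1 ∪ v.1)ᶜ then (1 : ℤ) else 0) w.1 := by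
    intro w
    rw [SPK_adj, SPK_adj]
    have h2 : w.1 ⊆ (u.1 ∪ v.1)ᶜ ↔ Disjoint u.1 w.1 ∧ Disjoint w.1 v.1 := by
      rw [← SPK_disj, Finset.disjoint_union_left, disjoint_comm (a := v.1)]
    by_cases h3 : Disjoint u.1 w.1
    · by_cases h4 : Disjoint w.1 v.1
      · rw [if_pos h3, if_pos h4, mul_one]
        exact (if_pos (h2.mpr ⟨h3, h4⟩)).symm
      · rw [if_neg h4, mul_zero]
        exact (if_neg (fun h => h4 (h2.mp h).2)).symm
    · rw [if_neg h3, zero_mul]
      exact (if_neg (fun h => h3 (h2.mp h).1)).symm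
  rw [sum_congr rfl fun w _ => h1 w, SPK_sum (fun w : Finset (Fin 9) => if w ⊆ (u.1 ∪ v.1)ᶜ then (1 : ℤ) else 0),
    sum_boole, SPK_sub, card_powersetCard, card_compl, Fintype.card_fin]
  have h2 := card_union_add_card_inter u.1 v.1
  rw [u.2, v.2] at h2
  have h3 : (u.1 ∩ v.1).card ≤ 3 := (card_le_card inter_subset_left).trans (le_of_eq u.2)
  have h4 : 9 - (u.1 ∪ v.1).card = 3 + (u.1 ∩ v.1).card := by omega
  rw [h4]

/-- the 3-subsets of a 6-set containing a point -/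
theorem SPK_pt (S : Finset (Fin 9)) (hS : S.card = 6) (k : Fin 9) :
    (((powersetCard 3 S).filter (fun w => k ∈ w)).card : ℤ) = if k ∈ S then 10 else 0 := by
  by_cases hk : k ∈ S
  · rw [if_pos hk]
    have h1 : (powersetCard 3 S).filter (fun w => ¬ k ∈ w) = powersetCard 3 (S.erase k) := by
      ext w
      rw [mem_filter, mem_powersetCard, mem_powersetCard, subset_erase]
      tauto
    have h2 := card_filter_add_card_filter_not (s := powersetCard 3 S) (fun w => k ∈ w)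
    rw [h1, card_powersetCard, card_powersetCard, card_erase_of_mem hk, hS] at h2
    have h3 : Nat.choose 6 3 = 20 := rfl
    have h4 : Nat.choose (6 - 1) 3 = 10 := rfl
    rw [h3, h4] at h2
    have h5 : ((powersetCard 3 S).filter (fun w => k ∈ w)).card = 10 := by omega
    rw [h5]
    rfl
  · rw [if_neg hk]
    have h1 : (powersetCard 3 S).filter (fun w => k ∈ w) = ∅ := by
      rw [filter_eq_empty_iff]
      intro w hw hkw
      exact hk ((mem_powersetCard.mp hw).1 hkw)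
    rw [h1, card_empty]
    rfl

/-- `A R = -10 R` for `R_uv = |u ∩ v| - 1` -/
theorem SPK_AR (u v : V93) : ∑ w : V93, K93.adjMatrix ℤ u w * (((w.1 ∩ v.1).card : ℤ) - 1) =
    -10 * (((u.1 ∩ v.1).card : ℤ) - 1) := by
  have h1 : ∀ w : V93, K93.adjMatrix ℤ u w * (((w.1 ∩ v.1).card : ℤ) - 1) =
      (fun w : Finset (Fin 9) => if w ⊆ u.1ᶜ then (((w ∩ v.1).card : ℤ) - 1) else 0) w.1 := by
    intro w
    rw [SPK_adj]
    by_cases h3 : Disjoint u.1 w.1
    · rw [if_pos h3, one_mul]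
      exact (if_pos ((SPK_disj _ _).mp h3)).symm
    · rw [if_neg h3, zero_mul]
      exact (if_neg (fun h => h3 ((SPK_disj _ _).mpr h))).symm
  have hc : (u.1ᶜ).card = 6 := by
    rw [card_compl, u.2]
    rfl
  rw [sum_congr rfl fun w _ => h1 w, SPK_sum (fun w : Finset (Fin 9) => if w ⊆ u.1ᶜ then (((w ∩ v.1).card : ℤ) - 1) else 0),
    ← sum_filter, SPK_sub, sum_sub_distrib, sum_const, card_powersetCard, hc]
  have h2 : ∑ w ∈ powersetCard 3 u.1ᶜ, ((w ∩ v.1).card : ℤ) = 10 * ((v.1 \ u.1).card : ℤ) := by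
    have h3 : ∀ w : Finset (Fin 9), ((w ∩ v.1).card : ℤ) = ∑ k ∈ v.1, if k ∈ w then (1 : ℤ) else 0 := by
      intro w
      rw [sum_boole]
      congr 2
      ext k
      rw [mem_filter, mem_inter]
      tauto
    rw [sum_congr rfl fun w _ => h3 w, sum_comm]
    have h4 : ∀ k ∈ v.1, ∑ w ∈ powersetCard 3 u.1ᶜ, (if k ∈ w then (1 : ℤ) else 0) = if k ∈ u.1ᶜ then 10 else 0 := by
      intro k _
      rw [sum_boole, SPK_pt _ hc]
    rw [sum_congr rfl h4, ← sum_filter, sum_const]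
    have h5 : v.1.filter (fun k => k ∈ u.1ᶜ) = v.1 \ u.1 := by
      ext k
      rw [mem_filter, mem_sdiff, mem_compl]
    rw [h5, nsmul_eq_mul]
    ring
  rw [h2]
  have h6 : (v.1 \ u.1).card + (v.1 ∩ u.1).card = 3 := by
    rw [card_sdiff_add_card_inter, v.2]
  rw [inter_comm v.1] at h6
  have h7 : ((v.1 \ u.1).card : ℤ) = 3 - ((u.1 ∩ v.1).card : ℤ) := by
    have : ((v.1 \ u.1).card : ℤ) + ((u.1 ∩ v.1).card : ℤ) = 3 := by exact_mod_cast h6
    linarith
  have h8 : (Nat.choose 6 3) • (1 : ℤ) = 20 := by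
    have : Nat.choose 6 3 = 20 := rfl
    rw [this]
    norm_num
  rw [h7, h8]
  ring

/-- the matrix `R` -/
def SPK_R : Matrix V93 V93 ℤ := Matrix.of fun u v => ((u.1 ∩ v.1).card : ℤ) - 1

theorem SPK_sq : K93.adjMatrix ℤ * K93.adjMatrix ℤ =
    (3 : ℤ) • K93.adjMatrix ℤ + (4 : ℤ) • 1 + (4 : ℤ) • JJ V93 + (6 : ℤ) • SPK_R := by
  ext u v
  rw [SPK_two, Matrix.add_apply, Matrix.add_apply, Matrix.add_apply, Matrix.smul_apply, Matrix.smul_apply,
    Matrix.smul_apply, Matrix.smul_apply, SPK_adj, Matrix.one_apply]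
  unfold JJ SPK_R
  rw [Matrix.of_apply, Matrix.of_apply, smul_eq_mul, smul_eq_mul, smul_eq_mul, smul_eq_mul]
  have h3 : (u.1 ∩ v.1).card ≤ 3 := (card_le_card inter_subset_left).trans (le_of_eq u.2)
  have hd : Disjoint u.1 v.1 ↔ (u.1 ∩ v.1).card = 0 := by
    rw [Finset.disjoint_iff_inter_eq_empty, card_eq_zero]
  have he : u = v ↔ (u.1 ∩ v.1).card = 3 := by
    constructor
    · rintro rfl
      rw [inter_self, u.2]
    · intro h
      have h4 : u.1 ∩ v.1 = u.1 := eq_of_subset_of_card_le inter_subset_left (by rw [h, u.2])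
      have h5 : u.1 ∩ v.1 = v.1 := eq_of_subset_of_card_le inter_subset_right (by rw [h, v.2])
      exact Subtype.ext (h4.symm.trans h5)
  generalize (u.1 ∩ v.1).card = m at h3 hd he
  interval_cases m
  · rw [if_pos (hd.mpr rfl), if_neg (fun h => by have := he.mp h; omega)]
    rfl
  · rw [if_neg (fun h => by have := hd.mp h; omega), if_neg (fun h => by have := he.mp h; omega)]
    rfl
  · rw [if_neg (fun h => by have := hd.mp h; omega), if_neg (fun h => by have := he.mp h; omega)]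
    rfl
  · rw [if_neg (fun h => by have := hd.mp h; omega), if_pos (he.mpr rfl)]
    rfl

theorem SPK : SPK_stmt := by
  have hrow : ∀ u : V93, ∑ v, K93.adjMatrix ℤ u v = 20 := by
    intro u
    have h1 : ∀ v : V93, K93.adjMatrix ℤ u v = (fun w : Finset (Fin 9) => if w ⊆ u.1ᶜ then (1 : ℤ) else 0) v.1 := by
      intro v
      rw [SPK_adj]
      by_cases h3 : Disjoint u.1 v.1
      · rw [if_pos h3]
        exact (if_pos ((SPK_disj _ _).mp h3)).symm
      · rw [if_neg h3]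
        exact (if_neg (fun h => h3 ((SPK_disj _ _).mpr h))).symm
    have hc : (u.1ᶜ).card = 6 := by
      rw [card_compl, u.2]
      rfl
    rw [sum_congr rfl fun v _ => h1 v, SPK_sum (fun w : Finset (Fin 9) => if w ⊆ u.1ᶜ then (1 : ℤ) else 0), sum_boole,
      SPK_sub, card_powersetCard, hc]
    rfl
  have hAJ : K93.adjMatrix ℤ * JJ V93 = (20 : ℤ) • JJ V93 := by
    ext u v
    rw [Matrix.mul_apply, Matrix.smul_apply]
    unfold JJ
    rw [Matrix.of_apply, smul_eq_mul, mul_one]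
    have h1 : ∀ w : V93, K93.adjMatrix ℤ u w * (Matrix.of fun _ _ => (1 : ℤ)) w v = K93.adjMatrix ℤ u w := by
      intro w
      rw [Matrix.of_apply, mul_one]
    rw [sum_congr rfl fun w _ => h1 w, hrow]
  have hAR : K93.adjMatrix ℤ * SPK_R = (-10 : ℤ) • SPK_R := by
    ext u v
    rw [Matrix.mul_apply, Matrix.smul_apply]
    exact SPK_AR u v
  refine ⟨SPK_card, ?_, ?_, ?_, hrow, ?_⟩
  · intro u v
    rw [SPK_adj, SPK_adj]
    by_cases h : Disjoint u.1 v.1
    · rw [if_pos h, if_pos h.symm]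
    · rw [if_neg h, if_neg (fun h' => h h'.symm)]
  · intro u v
    rw [SPK_adj]
    by_cases h : Disjoint u.1 v.1
    · exact Or.inr (if_pos h)
    · exact Or.inl (if_neg h)
  · intro u
    rw [SimpleGraph.adjMatrix_apply, if_neg (SimpleGraph.irrefl _)]
  · have h1 : K93.adjMatrix ℤ * K93.adjMatrix ℤ * K93.adjMatrix ℤ =
        K93.adjMatrix ℤ * (K93.adjMatrix ℤ * K93.adjMatrix ℤ) := Matrix.mul_assoc _ _ _
    have h2 : K93.adjMatrix ℤ * (K93.adjMatrix ℤ * K93.adjMatrix ℤ) = (3 : ℤ) • (K93.adjMatrix ℤ * K93.adjMatrix ℤ) +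
        (4 : ℤ) • K93.adjMatrix ℤ + (4 : ℤ) • ((20 : ℤ) • JJ V93) + (6 : ℤ) • ((-10 : ℤ) • SPK_R) := by
      conv_lhs => rw [SPK_sq]
      rw [mul_add, mul_add, mul_add, mul_smul_comm, mul_smul_comm, mul_smul_comm, mul_smul_comm, mul_one, hAJ, hAR]
    rw [h1, h2, SPK_sq]
    module

end Pool.Agent.KN
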