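import Pool.Agent.helper82.KN.Spec

/-!
# Project kn (MP_8ffa71_co), row kn:SPZ (the characteristic polynomial over a field)
-/

set_option autoImplicit false

open Finset Polynomial

namespace Pool.Agent.KN

theorem SPZ : SPZ_stmt := by
  intro V _ _ A h F _
  have key : ∀ (K : Type) [Field K], ((X - 20) * (X + 10) ^ 8 * (X - 4) ^ 27 * (X + 1) ^ 48 : ℤ[X]).map (Int.castRingHom K) = P93 K := by
    intro K _
    unfold P93
    simp only [Polynomial.map_mul, Polynomial.map_pow, Polynomial.map_sub, Polynomial.map_add, Polynomial.map_X,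
      Polynomial.map_ofNat, Polynomial.map_one]
  have hA : A.charpoly = (X - 20) * (X + 10) ^ 8 * (X - 4) ^ 27 * (X + 1) ^ 48 := by
    apply Polynomial.map_injective (Int.castRingHom ℝ) Int.cast_injective
    rw [key, ← h, ← Matrix.charpoly_map]
    rfl
  have h2 : (A.map (fun x : ℤ => (x : F))).charpoly = A.charpoly.map (Int.castRingHom F) := by
    rw [← Matrix.charpoly_map]
    rfl
  rw [h2, hA, key]

end Pool.Agent.KN
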