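import Pool.Agent.helper82.KN.Defs

/-!
# Project kn (MP_8ffa71_co): K(9,3) is determined by its spectrum and ..., rows kn:*

THEOREM. A graph with the spectrum of K(9,3) in which every edge lies in a triangle (or no edge in two triangles, or 2-rank of A at most 49, or 3-rank of A + I at most 28) is K(9,3).
Page: /team-store/C6_MP_8ffa71_co_helper82.md (refereed by helper1: GO).
DONE by helper82 (Pool/Agent/helper82/KN/R*.lean): RTT RNE RHF RD4 RTL RC7 RL2 RPA RGE RM2 RCL REQ RSP RSE RPT RST.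

RULES. One file per row: `Pool/Agent/<seat>/KN/XXX.lean`, `import Pool.Agent.helper82.KN.Spec`, `set_option autoImplicit false`, `open Finset Polynomial`,
`namespace Pool.Agent.KN`, auxiliary lemmas prefixed `XXX_`. Other rows enter only as hypotheses (exact theorem line in the lock note), no row waits for another.
No straight double quotes, no `convert` / `congr!`, no native_decide. The proof of every row is in its docstring.
-/

set_option autoImplicit false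

open Finset Polynomial

namespace Pool.Agent.KN

/-! ## Block S: the spectrum -/

/-- ROW kn:SPA (medium). Spectral theorem (`Matrix.IsHermitian`): `charpoly = ∏ (X - θ_i)` (roots of the charpoly = eigenvalues), so every `θ_i` is one of 20, -10, 4, -1, with these multiplicities (count roots of `P93`). `A = U diag(θ) U*`:
`q(A) = 0` for `q = (X-20)(X-4)(X+1)(X+10)`, `tr A² = ∑ θ_i² = 400 + 8·100 + 27·16 + 48 = 1680`, `tr (A-4)(A+1)(A+10) = 16·21·30 = 10080`, and `20 - A` is positive semidefinite. `card V` = degree of the charpoly. -/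
def SPA_stmt : Prop := ∀ (V : Type) [Fintype V] [DecidableEq V] (A : Matrix V V ℝ), A.IsHermitian → A.charpoly = P93 ℝ →
  Fintype.card V = 84 ∧ (A - (20 : ℝ) • 1) * ((A - (4 : ℝ) • 1) * (A + 1) * (A + (10 : ℝ) • 1)) = 0 ∧ (A * A).trace = 1680 ∧
  ((A - (4 : ℝ) • 1) * (A + 1) * (A + (10 : ℝ) • 1)).trace = 10080 ∧ ∀ x : V → ℝ, 0 ≤ x ⬝ᵥ (((20 : ℝ) • 1 - A).mulVec x)

/-- ROW kn:SPB (medium; from SPA). `A` = real adjacency matrix. `1ᵀ (20 - A) 1 = 20·84 - ∑ A = 20·84 - tr A² = 0` (`tr A² = ∑_(u,v) A_uv² = ∑ A_uv`). For a positive semidefinite symmetric `Q` with `xᵀ Q x = 0` one has `Q x = 0` (`0 ≤ (x + t y)ᵀ Q (x + t y)` for all `t`), so `A 1 = 20·1`. `B = (A-4)(A+1)(A+10)`: `A B = 20 B` (and `B A = 20 B`), so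
`B² = 10080 B` (`(20-4)(20+1)(20+10) = 10080`), `B 1 = 10080·1`. `C = B - 120 J`: `C² = 10080 C`, `tr C = 10080 - 84·120 = 0`, so `∑ C_uv² = tr C² = 0`, `C = 0`. Expand `B = A³ + 7A² - 34A - 40`. Cast to `ℤ`. -/
def SPB_stmt : Prop := ∀ (V : Type) [Fintype V] [DecidableEq V] (G : SimpleGraph V) [DecidableRel G.Adj],
  (G.adjMatrix ℝ).charpoly = P93 ℝ → Spec93 (G.adjMatrix ℤ)

/-- ROW kn:SPC (medium). Real eigenvalues `θ_i`. `(A-20) B = 120 (A-20) J = 0`, `B = (A-4)(A+1)(A+10) = 120 J`, so every `θ_i` is one of 20, 4, -1, -10. Multiplicities `m, a, b, c`: `tr B = 120·84` gives `10080 m = 10080`, `m = 1`; `1 + a + b + c = 84`,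
`20 + 4a - b - 10c = tr A = 0`, `400 + 16a + b + 100c = tr A² = 84·20`: `a = 27`, `b = 48`, `c = 8`. `charpoly = ∏ (X - θ_i)`. -/
def SPC_stmt : Prop := ∀ (V : Type) [Fintype V] [DecidableEq V] (A : Matrix V V ℤ), Spec93 A → (A.map (fun x : ℤ => (x : ℝ))).charpoly = P93 ℝ

/-- ROW kn:SPK (medium). The relation `cub` for K(9,3). One way: `σ : Equiv.Perm (Fin 9)` acts on `V93` (`Finset.map`) and preserves the adjacency matrix, so `(A²) (σu) (σv) = (A²) u v`, the same for `A³`; every `u` is `σ {0,1,2}` for some `σ` (for example `decide` on products of transpositions, or extend an injection `Fin 3 → Fin 9`), so it suffices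
to check the row of `u₀ = {0,1,2}`: first `(A²) u₀ w = 20, 10, 4, 1` for `|u₀ ∩ w| = 3, 2, 1, 0` (84 sums with 84 terms, `decide +kernel`), then `(A³) u₀ v = ∑_w (A²) u₀ w * A w v` (the same size). Row sums: `card` of the neighbours is 20 (the same way, or 3-subsets of the complement, `Finset.card_powersetCard`). `Fintype.card V93 = 84` by `decide` or `Fintype.card_finset_len`.
Another way: everything by `decide +kernel` with 84 explicit bit masks. -/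
def SPK_stmt : Prop := Spec93 (K93.adjMatrix ℤ)

/-- ROW kn:SPZ (short). `charpoly` commutes with ring homomorphisms (`Matrix.charpoly_map`); the polynomial over `ℤ` is determined by its image over `ℝ` (`Polynomial.map_injective`); then map to `F`. -/
def SPZ_stmt : Prop := ∀ (V : Type) [Fintype V] [DecidableEq V] (A : Matrix V V ℤ), (A.map (fun x : ℤ => (x : ℝ))).charpoly = P93 ℝ →
  ∀ (F : Type) [Field F], (A.map (fun x : ℤ => (x : F))).charpoly = P93 F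

/-- ROW kn:RK2 (medium). In characteristic 2: `A³ = A²`, so `A² (A+1) = 0`, `A⁴ = A²`. `P93 = X^36 (X+1)^48`, so the generalised eigenspace of 1 has dimension 48 (`LinearMap.finrank_maxGenEigenspace_eq` or similar) and it is the range of `A²` (`x = A² x` iff `(A+1) x = 0` iff `(A+1)^k x = 0`), so `rank A² = 48`.
`rank A = rank A² + rank (A² + A)`: `A = A² + (A² + A)`; on `ker A²` the maps `A` and `A² + A` agree, and `(A² + A) A² = 0`; `ker A ⊆ ker A²`: `rank (A² + A) = rank (A | ker A²) = dim ker A² - dim ker A = rank A - rank A²`. -/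
def RK2_stmt : Prop := ∀ (V : Type) [Fintype V] [DecidableEq V] (A : Matrix V V (ZMod 2)), A.charpoly = P93 (ZMod 2) → A * A * A = A * A →
  A.rank = 48 + (A * A + A).rank

/-- ROW kn:RK3 (medium). In characteristic 3: `(A-1)(A+1)² = 0`. `P93 = (X-1)^27 (X+1)^57`; the generalised eigenspace of 1 has dimension 27 and it is the range of `(A+1)²` (there `(A+1)² = 4 = 1`), so `rank (A+1)² = 27`. On `ker (A+1)²`: `(A-1)(A+1) x = (A+1)² x - 2 (A+1) x = (A+1) x`, and `(A² - 1)(A+1)² = 0`; `ker (A+1) ⊆ ker (A+1)²`: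
`rank (A² - 1) = rank ((A+1) | ker (A+1)²) = rank (A+1) - 27` (as in RK2). -/
def RK3_stmt : Prop := ∀ (V : Type) [Fintype V] [DecidableEq V] (A : Matrix V V (ZMod 3)), A.charpoly = P93 (ZMod 3) →
  (A - 1) * ((A + 1) * (A + 1)) = 0 → (A + 1).rank = 27 + (A * A - 1).rank

/-- ROW kn:R2H (short-medium; from SPC, SPZ, RK2). Reduce `cub` mod 2: `A³ = A²`. `rank A ≤ 49` gives `rank E ≤ 1` for `E = A² + A` mod 2. `E` is symmetric with diagonal `20 + 0 = 0`, and all 2 x 2 minors of a matrix of rank `≤ 1` vanish (see R3H), so `E_uv² = E_uu E_vv = 0`, `E = 0`. So `(A²)_uv` is odd if `A_uv = 1`; it is `≥ 0`. -/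
def R2H_stmt : Prop := ∀ (V : Type) [Fintype V] [DecidableEq V] (A : Matrix V V ℤ), Spec93 A →
  (A.map (fun x : ℤ => (x : ZMod 2))).rank ≤ 49 → ∀ u v, A u v = 1 → 1 ≤ (A * A) u v

/-- ROW kn:R3H (short-medium; from SPC, SPZ, RK3). Reduce `cub` mod 3: `(A-1)(A+1)² = 0`. `C = A² - 1` mod 3 has rank `≤ 1`, `C_uu = 20 - 1 = 1`: all 2 x 2 minors of `C` vanish (`rank ≤ 1`: for example `C = a bᵀ`, or the rows are multiples of one vector, or `Matrix.rank_submatrix_le` and a 2 x 2 matrix with nonzero determinant has rank 2), so `C_uv C_vu = C_uu C_vv = 1`,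
`C_uv ≠ 0`; for `u ≠ v` it is `(A²)_uv` mod 3, so `(A²)_uv ≠ 0`, and `(A²)_uv ≥ 0`. -/
def R3H_stmt : Prop := ∀ (V : Type) [Fintype V] [DecidableEq V] (A : Matrix V V ℤ), Spec93 A →
  (A.map (fun x : ℤ => (x : ZMod 3)) + 1).rank ≤ 28 → ∀ u v, A u v = 1 → 1 ≤ (A * A) u v

/-- ROW kn:RKK (short-medium; from SPK, SPC, SPZ, RK2, RK3). `(A²)_uv` for K(9,3) is 20, 10, 4, 1 (`|u ∩ v|` = 3, 2, 1, 0) (by counting, or by `decide`): mod 2 `A² + A = 0`, mod 3 `A² - 1 = J` has rank 1. -/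
def RKK_stmt : Prop := ((K93.adjMatrix ℤ).map (fun x : ℤ => (x : ZMod 2))).rank ≤ 48 ∧ ((K93.adjMatrix ℤ).map (fun x : ℤ => (x : ZMod 3)) + 1).rank ≤ 28

/-! ## Block M: the matrix `M = A² - 3A - 4I - 4J` -/

/-- ROW kn:MDA (medium). All are consequences of `cub`, `A J = J A = 20 J`, `J² = 84 J`: `A M = A³ - 3A² - 4A - 80J = -10 M`; `M J = (400 - 60 - 4 - 336) J = 0`; `M M = (A² - 3A - 4) M = (100 + 30 - 4) M`. `M_uu = 20 - 4 - 4`. `msq` = diagonal entry of `M M`. `conn`: entry `(u, v)` of `cub` is 120. -/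
def MDA_stmt : Prop := ∀ (V : Type) [Fintype V] [DecidableEq V] (A : Matrix V V ℤ), Spec93 A → MData A (MM A)

/-- ROW kn:MPO (short). `∑_z (∑_u f_u M_zu)² = fᵀ M M f = 126 fᵀ M f`. -/
def MPO_stmt : Prop := ∀ (V : Type) [Fintype V] [DecidableEq V] (A M : Matrix V V ℤ), MData A M → ∀ f : V → ℤ,
  0 ≤ ∑ u, ∑ v, f u * f v * M u v ∧ (∑ u, ∑ v, f u * f v * M u v = 0 → ∀ z, ∑ u, f u * M z u = 0)

/-- ROW kn:MLA (short). The diagonal entry of `A M = -10 M`: `∑_v A_uv M_uv = -120`, with `M_uv = (A²)_uv - 7` on edges and 20 edges at `u`: `∑_(v ~ u) (A²)_uv = 20`, all terms are `≥ 1`, so `= 1`. -/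
def MLA_stmt : Prop := ∀ (V : Type) [Fintype V] [DecidableEq V] (A M : Matrix V V ℤ), MData A M →
  (∀ u v, A u v = 1 → 1 ≤ (A * A) u v) → ∀ u v, A u v = 1 → M u v = -6

/-- ROW kn:MLB (short). As MLA: 20 terms `≤ 1` with sum 20. -/
def MLB_stmt : Prop := ∀ (V : Type) [Fintype V] [DecidableEq V] (A M : Matrix V V ℤ), MData A M →
  (∀ u v, A u v = 1 → (A * A) u v ≤ 1) → ∀ u v, A u v = 1 → M u v = -6

/-- ROW kn:MLI (medium; from MPO). `M_uv = -6` means `(A²)_uv = 1`: exactly one common neighbour, `p u v` (choice; arbitrary if `A u v = 0`). `f = e_u + e_v + e_w` for the triangle: `fᵀ M f = 36 - 36 = 0`. -/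
def MLI_stmt : Prop := ∀ (V : Type) [Fintype V] [DecidableEq V] (A M : Matrix V V ℤ), MData A M →
  (∀ u v, A u v = 1 → M u v = -6) → LData A M

/-- ROW kn:LV0 (short-medium). `M_uv = μ - 4`, `μ = (A²)_uv = ∑_w A_vw A_uw ≥ 0`. `w ↦ p v w` is an involution of the neighbours of `v`, and `A_uw + A_u(p v w) ≤ 1` (if `u` is adjacent to `w` and to `w' = p v w`, then `w w'` is an edge with the common neighbours `u`, `v`, so `u = v`). Sum over the 20 neighbours: `2 μ ≤ 20`. -/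
def LV0_stmt : Prop := ∀ (V : Type) [Fintype V] [DecidableEq V] (A M : Matrix V V ℤ), LData A M →
  ∀ u v, u ≠ v → A u v = 0 → -4 ≤ M u v ∧ M u v ≤ 6

/-- ROW kn:LV1 (short; from LV0). `z = p v w`. `A_uz = 0` (else the edge `w z` has the common neighbours `u`, `v`), `z ≠ u` as `A_uv = 0`. `M_uv + M_uw + M_uz = 0` (`par`), `M_uw = -6`. As `M_uz ≤ 6`: `0 ≤ M_uv`. -/
def LV1_stmt : Prop := ∀ (V : Type) [Fintype V] [DecidableEq V] (A M : Matrix V V ℤ), LData A M →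
  ∀ u v w, u ≠ v → A u v = 0 → A u w = 1 → A v w = 1 → 0 ≤ M u v ∧ ∃ z, z ≠ u ∧ A u z = 0 ∧ A v z = 1 ∧ A w z = 1 ∧ M u z = 6 - M u v

/-- ROW kn:LV2 (medium; from LV0, LV1). `μ = M_uv + 4 < 10`: the involution `w ↦ p v w` of the 20 neighbours of `v`: if every `{w, p v w}` contained a neighbour of `u` then `μ = 10` (sum of `A_uw + A_u(p v w) = 1`). So there is `w` with `A_uw = A_uz = 0`, `z = p v w`; `w, z ≠ u`. `M_uw + M_uz = -M_uv < 0`.
Each of `M_uw`, `M_uz` is `≥ 0` or `= -4` (LV1 if there is a common neighbour; `M = μ - 4 = -4` otherwise). So one of them is -4; both are not (their sum is `≥ -6`.. use `M ≤ 6`: `-M_uv > -6`, and -8 < -6). Exchange `w`, `z` if necessary. -/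
def LV2_stmt : Prop := ∀ (V : Type) [Fintype V] [DecidableEq V] (A M : Matrix V V ℤ), LData A M →
  ∀ u v, u ≠ v → A u v = 0 → 0 < M u v → M u v < 6 → ∃ w z, w ≠ u ∧ z ≠ u ∧ A v w = 1 ∧ A v z = 1 ∧ A u w = 0 ∧ A u z = 0 ∧ M u w = -4 ∧ M u z = 4 - M u v

/-- ROW kn:LV3 (short-medium; from LV0, LV1, LV2). No common neighbour: `M_uv = -4`. Otherwise `0 ≤ M_uv ≤ 6` (LV0, LV1). `5`: LV2 gives `z` with `M_uz = -1`, impossible. `1`: LV1 gives `z` with `M_uz = 5`, impossible. `3`: LV2 gives `z` with `M_uz = 1`, impossible. -/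
def LV3_stmt : Prop := ∀ (V : Type) [Fintype V] [DecidableEq V] (A M : Matrix V V ℤ), LData A M →
  ∀ u v, u ≠ v → A u v = 0 → M u v = -4 ∨ M u v = 0 ∨ M u v = 2 ∨ M u v = 4 ∨ M u v = 6

/-- ROW kn:LC1 (medium). Pairs `(w, v)`, `A_uw = A_wv = 1`, `M_uv = 2`: their number is `∑_(M_uv = 2) (A²)_uv = 6 n_2` (`sq`). `v ↦ p w v` maps them bijectively to the pairs `(w, z)` with `M_uz = 4` (`M_uw = -6`, `par`), whose number is `8 n_4`. (If `M_uv` is 2 or 4 then `v ≠ u` and `A_uv = 0`.) -/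
def LC1_stmt : Prop := ∀ (V : Type) [Fintype V] [DecidableEq V] (A M : Matrix V V ℤ), LData A M →
  ∀ u, 6 * nj M u 2 = 8 * nj M u 4

/-- ROW kn:LC2 (medium; from LV3, LC1). Row `u` of `M` has the values 12 (once), -6 (20 times) and -4, 0, 2, 4, 6: `n_(-4) + n_0 + n_2 + n_4 + n_6 = 63`; `∑ M = 0`: `12 - 120 - 4 n_(-4) + 2 n_2 + 4 n_4 + 6 n_6 = 0`; `∑ M² = 1512`: `144 + 720 + 16 n_(-4) + 4 n_2 + 16 n_4 + 36 n_6 = 1512`; `3 n_2 = 4 n_4`.
`omega` after writing the sums as sums over the fibres. -/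
def LC2_stmt : Prop := ∀ (V : Type) [Fintype V] [DecidableEq V] (A M : Matrix V V ℤ), LData A M →
  ∀ u, ∃ s : ℕ, s ≤ 1 ∧ nj M u (-4) = 7 * s ∧ nj M u 0 = 45 - 30 * s ∧ nj M u 2 = 20 * s ∧ nj M u 4 = 15 * s ∧ nj M u 6 = 18 - 12 * s ∧ nj M u (-6) = 20 ∧ nj M u 12 = 1

/-- ROW kn:LC3 (medium; from LC2, LV3). Let `A_uw = 1`, `s_u = 1`, `s_w = 0`, `z = p u w`. All `M_xw` are divisible by 6, so `M_xz = -M_xu - M_xw` is `= -M_xu` mod 3. In row `u` the number of entries `= 2` mod 3 is `n_(-4) + n_2 = 27` (the values are 12, -6, -4, 0, 2, 4, 6), so row `z` has 27 entries `= 1` mod 3, but this number is `n_4(z) = 15 s_z`. Contradiction.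
So `s` is the same for adjacent vertices, and by `conn` (a walk of length at most 3) for all. -/
def LC3_stmt : Prop := ∀ (V : Type) [Fintype V] [DecidableEq V] (A M : Matrix V V ℤ), LData A M →
  (∀ u, nj M u (-4) = 0) ∨ ∀ u, nj M u (-4) = 7

/-- ROW kn:LTR (medium). `D = diag(A_uw)_w`, `E = e_u e_uᵀ`, `Z = 7 M D M - 180 M - 20 M E M` (symmetric): `0 ≤ ∑ Z_xy² = tr Z²`. With `M M = 126 M`: `tr(MDM MDM) = 126² tr(M D M D) = 126² S`, `S = ∑ A_uw A_uw' M_ww'²`; `tr(MDM M) = 126² tr(M D) = 126²·240`; `tr(M M) = 126·1008 = 126²·8`;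
`tr(MEM M) = 126²·12`; `tr(MDM MEM) = 126² ∑_w A_uw M_uw² = 126²·720` (`M_uw = -6`); `tr(MEM MEM) = 126²·144`. So `0 ≤ 49 S + 8·180² + 400·144 - 2·7·180·240 - 2·7·20·720 + 2·180·20·12 = 49 S - 403200`. -/
def LTR_stmt : Prop := ∀ (V : Type) [Fintype V] [DecidableEq V] (A M : Matrix V V ℤ), LData A M →
  ∀ u, 403200 ≤ 49 * ∑ w, ∑ w', A u w * A u w' * M w w' ^ 2

/-- ROW kn:LS0 (medium; from LV3, LC2, LC3, LTR). If `n_(-4)(u) = 7` for all `u`, then `s = 1` for all `u`. `∑_u ∑_(w,w') A_uw A_uw' M_ww'² = ∑_w ∑_w' M_ww'² (A²)_ww'`, and by `sq` and LC2 the inner sum is `144·20 + 20·36·1 + 7·16·0 + 0 + 20·4·6 + 15·16·8 + 6·36·10 = 8160`. `49·8160 = 399840 < 403200`: contradiction with LTR.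
So `n_(-4) = 0`, `s = 0`, and `n_2 = n_4 = 0`; LV3. -/
def LS0_stmt : Prop := ∀ (V : Type) [Fintype V] [DecidableEq V] (A M : Matrix V V ℤ), LData A M →
  ∀ u v, u ≠ v → A u v = 0 → M u v = 0 ∨ M u v = 6

/-- ROW kn:RD1 (medium; from LC2, MPO). `r = M / 6`. `A = 1` iff `r = -1`, and with `B` = the 0-1 matrix of `r = 1`: `M = 12 - 6A + 6B`, i.e. `B = M/6 - 2 + A`. `card bd = n_6 = 18` (LC2, `s = 0` as `n_2 = 0`). `sq`: `M M = 126 M`. `suma`: `A M = -10 M`. `sumb`: `B M = (M/6 - 2 + A) M = (21 - 2 - 10) M = 9 M`. `mu`: `(A²)_uv = 6 + 4 = 10`.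
`cc`: `B² = (M/6 - 2 + A)² = M/2 - A + 8 + 4J` (use `A² = M + 3A + 4 + 4J`, `M M = 126 M`, `A M = M A = -10 M`), entry 4 where `M = A = 0`, `u ≠ v`. `line`: `par`. `pos`, `nul`: MPO. -/
def RD1_stmt : Prop := ∀ (V : Type) [Fintype V] [DecidableEq V] (A M : Matrix V V ℤ), LData A M →
  (∀ u v, u ≠ v → A u v = 0 → M u v = 0 ∨ M u v = 6) → ∃ r : V → V → ℤ, (∀ u v, M u v = 6 * r u v) ∧ (∀ u v, A u v = 1 ↔ r u v = -1) ∧ RBas r

/-! ## Block R: reconstruction of the points (`r` = inner products of roots) -/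

/-- ROW kn:RD2 (medium). Matrices `R = (r_uv)`, `R² = 21 R`; `a`, `b` the 0-1 matrices of `r = -1`, `r = 1`; `R = 2 - a + b`, `R a = a R = -10 R` (`suma`), `R J = 0` (`∑_x r_ux = 2 - 20 + 18`), `a J = 20 J`, `J² = 84 J`, and `a² = 6R + 3a + 4 + 4J`: its entries are `20, 1, 10, 4` for `r = 2, -1, 1, 0` (`na`, hypothesis, `mu`, hypothesis).
`P = 168 - 21 a - 42 b + 12 J = 252 - 42 R - 63 a + 12 J`, `P² = 315 P` (coefficients: `1`: 63504 + 15876 = 315·252; `a`: -31752 + 11907 = -315·63; `R`: -21168 + 23814 - 52920 + 37044 = -315·42; `J`: 6048 + 15876 - 30240 + 12096 = 315·12). `∑_xy R_xy² P_xy = 84 (4·180 - 20·9 - 18·30) = 0` (`P_xy = 180, -9, -30, 12` for `r = 2, -1, 1, 0`).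
For `w` let `D_w = diag(P_xw)`, `K_w = R D_w R` (symmetric): `∑_w ∑_xy (K_w)_xy² = ∑_w tr(R D_w R R D_w R) = 21² ∑_w tr(R D_w R D_w) = 21² ∑_xy R_xy² ∑_w P_xw P_yw = 21²·315 ∑_xy R_xy² P_xy = 0`, so `K_w = 0`: `∑_x r_ux r_vx P_xw = 0` for all `u, v, w`.
`P_xw = 12 + 168 [x = w] - 21 a_xw - 42 b_xw` and `∑_x r_ux r_vx = 21 r_uv`: `252 r_uv + 168 r_uw r_vw = 21 ∑_(x ∈ ad w) + 42 ∑_(x ∈ bd w)`; divide by 21. -/
def RD2_stmt : Prop := ∀ (V : Type) [Fintype V] [DecidableEq V] (r : V → V → ℤ), RBas r →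
  (∀ u v, r u v = 0 → (ad r u ∩ ad r v).card = 4) → (∀ u v, r u v = -1 → (ad r u ∩ ad r v).card = 1) → Krn r

/-- ROW kn:RD3 (short-medium). The two hypotheses of RD2 from `LData`: `ad r u` is the set of neighbours of `u`, so `|ad u ∩ ad v| = (A²)_uv = M_uv + 3 A_uv + 4` for `u ≠ v` (`sq`), which is `0 + 0 + 4` for `r = 0` (`M = 0`; `A_uv ≠ 1`; `u ≠ v` as `r u u = 2`) and `-6 + 3 + 4` for `r = -1`. -/
def RD3_stmt : Prop := ∀ (V : Type) [Fintype V] [DecidableEq V] (A M : Matrix V V ℤ) (r : V → V → ℤ), LData A M → RBas r →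
  (∀ u v, M u v = 6 * r u v) → (∀ u v, A u v = 1 ↔ r u v = -1) →
  (∀ u v, r u v = 0 → (ad r u ∩ ad r v).card = 4) ∧ ∀ u v, r u v = -1 → (ad r u ∩ ad r v).card = 1

/-- ROW kn:RTT (medium). (K) = `Krn` at `w` with `(u, v) := (z, b)`, `r_bw = -1`; `c` = third point of the line `{w, b, c}` (`line`), so `r_zc = -r_zw - r_zb`. For `x ∈ bd w`: `r_bx ∈ {-1, 0}` (`r_bx + r_cx = -1`.. from `line` with `z = x`: `r_xw + r_xb + r_xc = 0`, `r_xw = 1`, values in `{-1,0,1,2}`, `x ≠ b, c`). For `x ∈ ad w`, `x ≠ b, c`: `r_bx ∈ {0, 1}` (`r_bx + r_cx = 1`); `r_bb = 2`, `r_bc = -1`.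
With `σ(z) = ∑_(x ∈ bd w ∩ ad b) r_zx`, `ρ(z) = ∑_(x ∈ ad w ∩ bd b) r_zx`: (K) reads `12 r_zb - 8 r_zw = (2 r_zb - r_zc + ρ) - 2 σ`, i.e. `9 (r_zb - r_zw) = ρ - 2σ`. The same with `w` and `b` exchanged: `9 (r_zw - r_zb) = σ - 2ρ`. Hence `σ = 3 (r_zw - r_zb)`. -/
def RTT_stmt : Prop := ∀ (V : Type) [Fintype V] [DecidableEq V] (r : V → V → ℤ), RBas r → Krn r →
  ∀ w b, r w b = -1 → ∀ z, ∑ x ∈ bd r w ∩ ad r b, r z x = 3 * (r z w - r z b)

/-- ROW kn:RNE (short). If `r_uv = -1` take the line `{u, v, x}`: `r_wx = -2`, impossible (`val`, `diag`). -/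
def RNE_stmt : Prop := ∀ (V : Type) [Fintype V] [DecidableEq V] (r : V → V → ℤ), RBas r →
  ∀ w u v, r w u = 1 → r w v = 1 → r u v ≠ -1

/-- ROW kn:RHF (short). The line `{w, b, c}`: `r_uw + r_ub + r_uc = 0`, so `r_ub + r_uc = -1`; `r_ub = 1` would give `r_uc = -2`; `r_ub = 2` means `u = b`, but `r_wu = 1`. -/
def RHF_stmt : Prop := ∀ (V : Type) [Fintype V] [DecidableEq V] (r : V → V → ℤ), RBas r →
  ∀ w u b, r w u = 1 → r w b = -1 → r u b = -1 ∨ r u b = 0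

/-- ROW kn:RD4 (short-medium; from RTT, RNE). RTT with `z = u`: `∑_(x ∈ bd w ∩ ad b) r_ux = 3 (1 + 1) = 6`; `x = u` contributes 2 (`u ∈ bd w ∩ ad b`), the other `x` contribute 0 or 1 (RNE). -/
def RD4_stmt : Prop := ∀ (V : Type) [Fintype V] [DecidableEq V] (r : V → V → ℤ), RBas r → Krn r →
  ∀ w u b, r w u = 1 → r w b = -1 → r u b = -1 → (bd r w ∩ ad r b ∩ bd r u).card = 4

/-- ROW kn:RTL (medium; from RNE, RHF). (K) at `w` for `(u, v)`: `12 r_uv + 8 = ∑_(x ∈ ad w) r_ux r_vx + 2 ∑_(x ∈ bd w) r_ux r_vx`. First sum: values in `{-1, 0}` (RHF), so it is `t = |ad w ∩ ad u ∩ ad v|`. Second sum: `x = u` and `x = v` contribute `2 r_uv` each, the others 1 if `x ∈ bd u ∩ bd v` and 0 otherwise (RNE): `4 r_uv + l`. -/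
def RTL_stmt : Prop := ∀ (V : Type) [Fintype V] [DecidableEq V] (r : V → V → ℤ), RBas r → Krn r →
  ∀ w u v, r w u = 1 → r w v = 1 → u ≠ v → ((ad r w ∩ ad r u ∩ ad r v).card : ℤ) = 8 + 4 * r u v - 2 * ((bd r w ∩ bd r u ∩ bd r v).card : ℤ)

/-- ROW kn:RC7 (short; from RNE). `sumb`: `∑_(x ∈ bd w) r_ux = 9 r_uw = 9`; `x = u` contributes 2, the others 0 or 1 (RNE). -/
def RC7_stmt : Prop := ∀ (V : Type) [Fintype V] [DecidableEq V] (r : V → V → ℤ), RBas r →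
  ∀ w u, r w u = 1 → (bd r w ∩ bd r u).card = 7

/-- ROW kn:RL2 (medium; from RD4, RTL, RC7). Count pairs `(b, x)`, `b ∈ ad w ∩ ad u`, `x ∈ bd w ∩ bd u ∩ ad b`: for each of the 10 (`mu`) elements `b` there are 4 (RD4): 40. So `∑_(x ∈ bd w ∩ bd u) t(x) = 40`, `t(x) = |ad w ∩ ad u ∩ ad x| = 12 - 2 l(x)` (RTL, `r_ux = 1`), 7 elements (RC7): `84 - 2 ∑ l = 40`. -/
def RL2_stmt : Prop := ∀ (V : Type) [Fintype V] [DecidableEq V] (r : V → V → ℤ), RBas r → Krn r →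
  ∀ w u, r w u = 1 → ∑ x ∈ bd r w ∩ bd r u, (bd r w ∩ bd r u ∩ bd r x).card = 22

/-- ROW kn:RPA (medium; from RNE, RC7). Count pairs `(x, y)`, `x ∈ bd w ∩ bd u`, `y ∈ bd w ∩ bd x`, `y ≠ u`: `7·(7 - 1) = 42` (RC7 for `u` and for `x`). For fixed `y` (in `bd w`, `y ≠ u`, so `r_uy` is 0 or 1 by RNE) the number of `x` is `|bd w ∩ bd u ∩ bd y|`. -/
def RPA_stmt : Prop := ∀ (V : Type) [Fintype V] [DecidableEq V] (r : V → V → ℤ), RBas r →
  ∀ w u, r w u = 1 → ∑ x ∈ bd r w ∩ bd r u, (bd r w ∩ bd r u ∩ bd r x).card +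
    ∑ x ∈ (bd r w).filter (fun x => r u x = 0), (bd r w ∩ bd r u ∩ bd r x).card = 42

/-- ROW kn:RGE (medium). `x ∈ bd u ∩ bd v` (4 elements, `cc`; one of them is `w`). `f = e_x + e_w - e_u - e_v`: `fᵀ r f = 8 + 2 r_xw + 2 r_uv - 2·4 = 2 r_xw` for `x ≠ w`, so `r_xw ≥ 0`, i.e. `r_xw ∈ {0, 1}`; if `r_xw = 0` then `r_zx = r_zu + r_zv - r_zw` for all `z` (`nul`). If two elements `x ≠ y` have `r_xw = r_yw = 0` then `r_zx = r_zy` for all `z`, `r_xy = r_xx = 2`: contradiction (`val`).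
So at least 2 of the 3 elements `x ≠ w` are in `bd w`. -/
def RGE_stmt : Prop := ∀ (V : Type) [Fintype V] [DecidableEq V] (r : V → V → ℤ), RBas r →
  ∀ w u v, r w u = 1 → r w v = 1 → r u v = 0 → 2 ≤ (bd r w ∩ bd r u ∩ bd r v).card

/-- ROW kn:RM2 (short-medium; from RNE, RC7, RL2, RPA, RGE). The elements `x ≠ u` of `bd w` (18 elements) have `r_ux ∈ {0, 1}` (RNE): 7 with `r_ux = 1` (RC7), 10 with `r_ux = 0`. By RPA and RL2 the sum of `l` over the latter is 20, each is `≥ 2` (RGE), so each is 2. -/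
def RM2_stmt : Prop := ∀ (V : Type) [Fintype V] [DecidableEq V] (r : V → V → ℤ), RBas r → Krn r →
  ∀ w u v, r w u = 1 → r w v = 1 → r u v = 0 → (bd r w ∩ bd r u ∩ bd r v).card = 2

/-- ROW kn:RCL (short-medium; from RM2). `bd u ∩ bd v` has 4 elements (`cc`), `w` is one, exactly 2 are in `bd w` (RM2; `w` is not in `bd w`), so there is `x ≠ w` in `bd u ∩ bd v` with `r_xw ≠ 1`. As in RGE: `fᵀ r f = 2 r_xw ≥ 0`, so `r_xw = 0` and `nul` gives the claim. -/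
def RCL_stmt : Prop := ∀ (V : Type) [Fintype V] [DecidableEq V] (r : V → V → ℤ), RBas r → Krn r → Clo r

/-- ROW kn:REQ (medium). `x, y, v ∈ N = bd w ∩ bd u` with `r_xy = r_yv = 1`, `x ≠ v`. Suppose `r_xv ≠ 1`; by RNE `r_xv = 0`. `Clo` gives `w'` with `r_zw' = r_zx + r_zv - r_zw` and `u'` with `r_zu' = r_zx + r_zv - r_zu`. `w'` and `u'` are in `bd x ∩ bd v` (4 elements, `cc`), `r_ww' = 0`, `r_uu' = 0`. The elements `w, u, y, w'` of `bd x ∩ bd v` are distinct (`r_wu = 1`, `r_wy = 1`, `r_uy = 1`, and `r_ww' = 0`),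
so `u'` is one of them, `r_uu' = 0` excludes `w, u, y`, so `u' = w'` and `r_zw = r_zu` for all `z`; `z = u`: `1 = 2`. -/
def REQ_stmt : Prop := ∀ (V : Type) [Fintype V] [DecidableEq V] (r : V → V → ℤ), RBas r → Clo r →
  (∀ w u v, r w u = 1 → r w v = 1 → r u v ≠ -1) → ∀ w u x y v, r w u = 1 → x ∈ bd r w ∩ bd r u → y ∈ bd r w ∩ bd r u → v ∈ bd r w ∩ bd r u →
  r x y = 1 → r y v = 1 → x ≠ v → r x v = 1

/-- ROW kn:RSP (medium). Combinatorics. `N` has 7 elements; `x ~ y` iff `x = y` or `R x y` is an equivalence relation; `c(x)` = size of the class of `x`; `∑ (c(x) - 1) = 22`, so `∑ c(x) = 29`, all `c(x) ≥ 2`. `29 > 28` gives `x` with `c(x) ≥ 5`; `c(x) = 7` gives the sum 49; `c(x) = 6` leaves a class of size 1; so `c(x) = 5`, and the two other elements form one class. -/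
def RSP_stmt : Prop := ∀ (V : Type) [DecidableEq V] (N : Finset V) (R : V → V → Prop) [DecidableRel R], N.card = 7 → (∀ x, ¬ R x x) → (∀ x y, R x y → R y x) →
  (∀ x ∈ N, ∀ y ∈ N, ∀ z ∈ N, R x y → R y z → x ≠ z → R x z) → ∑ x ∈ N, (N.filter (fun y => R x y)).card = 22 →
  (∀ x ∈ N, 1 ≤ (N.filter (fun y => R x y)).card) → ∃ (a : Fin 2 → V) (b : Fin 5 → V), Function.Injective a ∧ Function.Injective b ∧
    (∀ i, a i ∈ N) ∧ (∀ j, b j ∈ N) ∧ (∀ i j, i ≠ j → R (a i) (a j)) ∧ (∀ i j, i ≠ j → R (b i) (b j)) ∧ ∀ i j, a i ≠ b j ∧ ¬ R (a i) (b j)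

/-- ROW kn:RSE (medium; from RNE, RC7, RL2, RTL, REQ, RSP). Choose `w` and `u ∈ bd w` (`nb`). `N = bd w ∩ bd u`, `R x y` iff `r x y = 1`; `N.filter (R x) = bd w ∩ bd u ∩ bd x`. `l ≥ 1`: RTL with `(u, x)`: `t = 12 - 2l` and `t ≤ |ad w ∩ ad u| = 10` (`mu`). RSP gives `a`, `b`; `sd 0 = w`, `sd 1 = u`, `sd 2, sd 3` = `a`, `sd 4, .., sd 8` = `b`. `r (a i) (b j) = 0` by RNE and `¬ R`. -/
def RSE_stmt : Prop := ∀ (V : Type) [Fintype V] [DecidableEq V] (r : V → V → ℤ), RBas r → Krn r → Clo r →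
  ∃ v : Fin 9 → V, ∀ i j, r (v i) (v j) = ((sd i ∩ sd j).card : ℤ) - 1

/-- ROW kn:RPT (medium). Linear algebra. For fixed `z` the nine numbers `q_i = r z (v i)` determine nine rational numbers `p_0, .., p_8` with `q_i = ∑_(k ∈ sd i) p_k` for all `i`: `p_2 - p_3 = q_0 - q_1`, `p_1 - p_2 = q_1 - q_2`, `p_0 - p_1 = q_2 - q_3`, `p_k - p_3 = q_k - q_1` for `k = 4, .., 8`, and
`3 p_0 = q_0 + (p_0 - p_1) + (p_0 - p_2)` (`q_0 = p_0 + p_1 + p_2`). Uniqueness: the same formulas. So there are functions `p k : V → ℚ`; and for `z = v j` the solution is `p_k = [k ∈ sd j] - 1/3` by uniqueness. -/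
def RPT_stmt : Prop := (∀ q : Fin 9 → ℚ, ∃ p : Fin 9 → ℚ, ∀ i, ∑ k ∈ sd i, p k = q i) ∧
  ∀ p p' : Fin 9 → ℚ, (∀ i, ∑ k ∈ sd i, p k = ∑ k ∈ sd i, p' k) → p = p'

/-- ROW kn:RST (medium). Combinatorics of 3-subsets of `Fin 9`: a property `Q` of 3-subsets which holds for the nine sets `sd i` and is closed under `(a, b, c) ↦ t` whenever `|a ∩ c| = |b ∩ c| = 2`, `|a ∩ b| = 1` and `1_t = 1_a + 1_b - 1_c`, holds for all 3-subsets. Proof: (1) `{x, y, j}`, `x, y ∈ {0,1,2}`, `j ≥ 4`: `{0,2,j} = {0,2,3} + {0,1,j} - {0,1,3}`, `{1,2,j} = {1,2,3} + {0,1,j} - {0,1,3}`; (with `j = 3`: given)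
(2) `{x, j, k}`, `x ≤ 2 < j < k`: with `{x, y, y'} = {0,1,2}`: `{x,y,j} + {x,y',k} - {0,1,2}`. (3) `{j, k, l}`, all `≥ 3`: `{0,j,k} + {1,k,l} - {0,1,k}`. (`decide` for the set identities, or `fin_cases`.) -/
def RST_stmt : Prop := ∀ Q : Finset (Fin 9) → Prop, (∀ i, Q (sd i)) →
  (∀ a b c t : Finset (Fin 9), a.card = 3 → b.card = 3 → c.card = 3 → t.card = 3 → (a ∩ c).card = 2 → (b ∩ c).card = 2 → (a ∩ b).card = 1 →
    (∀ k, ((if k ∈ t then 1 else 0) + (if k ∈ c then 1 else 0) : ℤ) = (if k ∈ a then 1 else 0) + (if k ∈ b then 1 else 0)) → Q a → Q b → Q c → Q t) →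
  ∀ t : Finset (Fin 9), t.card = 3 → Q t

/-- ROW kn:RIS (medium; from RPT, RST). RPT: functions `p k : V → ℚ` with `r z (v i) = ∑_(k ∈ sd i) p k z`. `Q t`: there is `x : V` with `r z x = ∑_(k ∈ t) p k z` for all `z`. To use RST together with inner products, take for `Q t`: there is `x` with `r z x = ∑_(k ∈ t) p k z` for all `z` AND `p k x = [k ∈ t] - 1/3` for all `k`. For `sd i`: `x = v i`, RPT uniqueness (`r (v j) (v i) = |sd i ∩ sd j| - 1 = ∑_(k ∈ sd j) ([k ∈ sd i] - 1/3)`).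
Step: `x_a, x_b, x_c`: `r x_c x_a = ∑_(k ∈ a) p k x_c = |a ∩ c| - 1 = 1`, `r x_c x_b = 1`, `r x_a x_b = 0`; `Clo` gives `x` with `r z x = r z x_a + r z x_b - r z x_c = ∑_(k ∈ t) p k z`; and `p k x`: uniqueness: `∑_(k ∈ sd j) p k x = r x (v j) = r (v j) x = ∑_(k ∈ t) p k (v j) = |t ∩ sd j| - 1 = ∑_(k ∈ sd j) ([k ∈ t] - 1/3)`.
So every 3-subset `t` gives `x_t`, `r x_s x_t = |s ∩ t| - 1`; `t ↦ x_t` is injective (`r = 2` iff `s = t`), both sides have 84 elements. -/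
def RIS_stmt : Prop := ∀ (V : Type) [Fintype V] [DecidableEq V] (r : V → V → ℤ), RBas r → Clo r →
  (∃ v : Fin 9 → V, ∀ i j, r (v i) (v j) = ((sd i ∩ sd j).card : ℤ) - 1) → ∃ e : V93 ≃ V, ∀ s t : V93, r (e s) (e t) = ((s.1 ∩ t.1).card : ℤ) - 1

end Pool.Agent.KN
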